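import Pool.Agent.Lib.MP_76a7f5_an.Norm

/-!
The energy identity and completing the square.
-/

namespace Pool.Agent.Lib.MP_76a7f5_an

open Polynomial Finset

noncomputable section

/-- `3^{-(2j+3)}` -/
def wj (j : ℕ) : ℝ := 1 / 3 ^ (2 * j + 3)

/-- even moments of the symmetric point with squares `y` -/
def Mj (y : ℕ → ℝ) (j : ℕ) : ℝ := 2 / 41 * ∑ i ∈ range 20, y i ^ (j + 1)

def Tj (j : ℕ) : ℝ := 1 / (2 * (j : ℝ) + 3)

/-- truncated energy of the symmetric point with squares `y` -/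
def Ey (y : ℕ → ℝ) : ℝ := ∑ j ∈ range 20, wj j * (Mj y j - Tj j) ^ 2

lemma wj_pos (j : ℕ) : 0 < wj j := by unfold wj; positivity

lemma int_poly (p : ℝ[X]) (h : p.natDegree < 20) (a b : ℝ) :
    ∫ t in a..b, p.eval t = ∑ j ∈ range 20, p.coeff j / ((j : ℝ) + 1) * (b ^ (j + 1) - a ^ (j + 1)) := by
  have e : ∀ t, p.eval t = ∑ j ∈ range 20, p.coeff j * t ^ j := fun t => eval_eq_sum_range' h t
  simp only [e]
  rw [intervalIntegral.integral_finsetSum]
  · refine Finset.sum_congr rfl fun j _ => ?_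
    rw [intervalIntegral.integral_const_mul, integral_pow]
    ring
  · intro j _
    exact (continuous_const.mul (continuous_pow j)).intervalIntegrable _ _

lemma Lfun (p : ℝ[X]) (h : p.natDegree < 20) (xs y : ℕ → ℝ) :
    4 / 41 * ∑ i ∈ range 20, ∫ t in (y i)..(xs i), p.eval t =
      - 2 * ∑ j ∈ range 20, p.coeff j / ((j : ℝ) + 1) * (Mj y j - Mj xs j) := by
  simp only [int_poly p h]
  rw [Finset.sum_comm, Finset.mul_sum, Finset.mul_sum]
  refine Finset.sum_congr rfl fun j _ => ?_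
  rw [← Finset.mul_sum, Finset.sum_sub_distrib]
  unfold Mj
  ring

lemma sq_complete (w p D m : ℝ) (hw : 0 < w) (hm : 0 < m) :
    - (1 / w * p ^ 2 / m ^ 2) ≤ w * D ^ 2 - 2 * (p / m * D) := by
  have h : w * D ^ 2 - 2 * (p / m * D) + 1 / w * p ^ 2 / m ^ 2 = w * (D - p / (m * w)) ^ 2 := by
    field_simp
    ring
  have h2 : 0 ≤ w * (D - p / (m * w)) ^ 2 := by positivity
  linarith

theorem energy_lower (xs y : ℕ → ℝ) (mU P Q : ℝ[X]) (hmU : mU.natDegree < 20)
    (hP : P.natDegree < 20) (hQ : mU = Q + P)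
    (hc : ∀ j < 20, mU.coeff j = - (((j : ℝ) + 1) * wj j * (Mj xs j - Tj j))) :
    Ey xs + 4 / 41 * (∑ i ∈ range 20, ∫ t in (y i)..(xs i), Q.eval t) - NN P ≤ Ey y := by
  have h1 : Ey y = Ey xs + ∑ j ∈ range 20, wj j * (Mj y j - Mj xs j) ^ 2 +
      2 * ∑ j ∈ range 20, wj j * (Mj xs j - Tj j) * (Mj y j - Mj xs j) := by
    unfold Ey
    rw [Finset.mul_sum, ← Finset.sum_add_distrib, ← Finset.sum_add_distrib]
    refine Finset.sum_congr rfl fun j _ => ?_
    ring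
  have h2 : 2 * ∑ j ∈ range 20, wj j * (Mj xs j - Tj j) * (Mj y j - Mj xs j) =
      4 / 41 * ∑ i ∈ range 20, ∫ t in (y i)..(xs i), mU.eval t := by
    rw [Lfun mU hmU, Finset.mul_sum, Finset.mul_sum]
    refine Finset.sum_congr rfl fun j hj => ?_
    rw [hc j (Finset.mem_range.1 hj)]
    have : ((j : ℝ) + 1) ≠ 0 := by positivity
    field_simp
  have h3 : 4 / 41 * ∑ i ∈ range 20, ∫ t in (y i)..(xs i), mU.eval t =
      4 / 41 * (∑ i ∈ range 20, ∫ t in (y i)..(xs i), Q.eval t) +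
      4 / 41 * ∑ i ∈ range 20, ∫ t in (y i)..(xs i), P.eval t := by
    rw [← mul_add, ← Finset.sum_add_distrib]
    congr 1
    refine Finset.sum_congr rfl fun i _ => ?_
    rw [← intervalIntegral.integral_add (Q.continuous.intervalIntegrable _ _)
      (P.continuous.intervalIntegrable _ _)]
    congr 1
    funext t
    rw [hQ, eval_add]
  have h4 : - NN P ≤ ∑ j ∈ range 20, wj j * (Mj y j - Mj xs j) ^ 2 +
      4 / 41 * ∑ i ∈ range 20, ∫ t in (y i)..(xs i), P.eval t := by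
    rw [Lfun P hP, Finset.mul_sum, ← Finset.sum_add_distrib]
    unfold NN
    rw [← Finset.sum_neg_distrib]
    refine Finset.sum_le_sum fun j _ => ?_
    have h5 := sq_complete (wj j) (P.coeff j) (Mj y j - Mj xs j) ((j : ℝ) + 1) (wj_pos j)
      (by positivity)
    have h6 : 1 / wj j = 3 ^ (2 * j + 3) := by unfold wj; simp
    rw [h6] at h5
    linarith
  rw [h1, h2, h3]
  linarith

/-- weighted Cauchy inequality for the form -/
lemma NN_cauchy {ι : Type*} (s : Finset ι) (u : ι → ℝ[X]) (θ : ι → ℝ) (hθ : ∀ i ∈ s, 0 < θ i)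
    (hs : ∑ i ∈ s, θ i = 1) : NN (∑ i ∈ s, u i) ≤ ∑ i ∈ s, NN (u i) / θ i := by
  unfold NN
  simp only [Finset.sum_div]
  rw [Finset.sum_comm]
  refine Finset.sum_le_sum fun j _ => ?_
  have h := Finset.sum_sq_le_sum_mul_sum_of_sq_le_mul s (r := fun i => (u i).coeff j)
    (f := fun i => θ i) (g := fun i => (u i).coeff j ^ 2 / θ i) (fun i hi => (hθ i hi).le)
    (fun i hi => div_nonneg (sq_nonneg _) (hθ i hi).le)
    (fun i hi => by have := hθ i hi; apply le_of_eq; field_simp)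
  rw [hs, one_mul] at h
  rw [Polynomial.finsetSum_coeff]
  have w : 0 ≤ (3 : ℝ) ^ (2 * j + 3) / ((j : ℝ) + 1) ^ 2 := by positivity
  calc (3 : ℝ) ^ (2 * j + 3) * (∑ i ∈ s, (u i).coeff j) ^ 2 / ((j : ℝ) + 1) ^ 2
      = (3 : ℝ) ^ (2 * j + 3) / ((j : ℝ) + 1) ^ 2 * (∑ i ∈ s, (u i).coeff j) ^ 2 := by ring
    _ ≤ (3 : ℝ) ^ (2 * j + 3) / ((j : ℝ) + 1) ^ 2 * ∑ i ∈ s, (u i).coeff j ^ 2 / θ i :=
        mul_le_mul_of_nonneg_left h w
    _ = _ := by
        rw [Finset.mul_sum]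
        refine Finset.sum_congr rfl fun i _ => ?_
        ring

lemma NN_smul (r : ℝ) (p : ℝ[X]) : NN (C r * p) = r ^ 2 * NN p := by
  unfold NN
  rw [Finset.mul_sum]
  refine Finset.sum_congr rfl fun j _ => ?_
  rw [coeff_C_mul]
  ring

end

end Pool.Agent.Lib.MP_76a7f5_an
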