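import Pool.Agent.Lib.MP_76a7f5_an.Norm

/-!
Rational data of the certificate: nodes, the positive polynomial, boxes.
-/

namespace Pool.Agent.Lib.MP_76a7f5_an

/-- multiple nodes; the last entry is the right end of the interval -/
def aq : ℕ → ℚ
  | 0 => 695925238786236808 / 100000000000000000000
  | 1 => 9384610325995576538 / 100000000000000000000
  | 2 => 28028618015675562289 / 100000000000000000000
  | 3 => 54287996239522874934 / 100000000000000000000
  | 4 => 81760192551647490673 / 100000000000000000000
  | _ => 1

/-- simple nodes -/
def bq : ℕ → ℚ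
  | 0 => 5515752518556324844 / 100000000000000000000
  | 1 => 24292698433714220173 / 100000000000000000000
  | 2 => 38543972275050550491 / 100000000000000000000
  | 3 => 68680048902024176065 / 100000000000000000000
  | _ => 96204416314756752167 / 100000000000000000000

/-- all nodes with multiplicity -/
def xsL : List ℚ := [aq 0, aq 0, aq 0, bq 0, aq 1, aq 1, aq 1, aq 1, bq 1, aq 2, aq 2, aq 2, bq 2,
  aq 3, aq 3, aq 3, bq 3, aq 4, aq 4, bq 4]

/-- positive polynomial -/
def omL : List ℚ := [
  323103634850876851394328 / 10000000000000000000000000000000000000000,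
  231017308220018260836847 / 10000000000000000000000000000000000000000,
  92512665132908029924805 / 10000000000000000000000000000000000000000,
  27407554865978036911620 / 10000000000000000000000000000000000000000,
  6701415417206694366465 / 10000000000000000000000000000000000000000,
  1430487245114188198535 / 10000000000000000000000000000000000000000,
  274497582187181137056 / 10000000000000000000000000000000000000000,
  47474363401086659406 / 10000000000000000000000000000000000000000,
  7007422599347668062 / 10000000000000000000000000000000000000000,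
  693876980521497053 / 10000000000000000000000000000000000000000]

/-- position of the simple nodes -/
def cI : ℕ → ℕ
  | 0 => 3
  | 1 => 8
  | 2 => 12
  | 3 => 16
  | _ => 19

/-- near box -/
def loN : ℕ → ℚ
  | 3 => bq 3 - 74 / 1000
  | 4 => bq 4 - 16 / 1000
  | k => aq k

def hiN : ℕ → ℚ
  | 3 => bq 3 + 74 / 1000
  | 4 => bq 4 + 16 / 1000
  | k => aq (k + 1)

/-- powers -/
def powq (x : ℚ) : ℕ → ℚ
  | 0 => 1
  | (n + 1) => powq x n * x

/-- sum of a list -/
def sumq : List ℚ → ℚ
  | [] => 0
  | (a :: L) => a + sumq L

/-- moment residual of the nodes -/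
def resq (j : ℕ) : ℚ := 2 / 41 * sumq (xsL.map (fun x => powq x (j + 1))) - 1 / (2 * (j : ℚ) + 3)

/-- coefficients of `-U'` -/
def mUL : List ℚ := (List.range 20).map (fun j : ℕ => -(((j : ℚ) + 1) * (1 / powq 3 (2 * j + 3)) * resq j))

/-- `omL` times the multiple nodes -/
def baseL : List ℚ := mulLin (aq 4) (mulLin (aq 3) (mulLin (aq 2) (mulLin (aq 1) (mulLin (aq 0) omL))))

def fullL : List ℚ := mulLin (bq 4) (mulLin (bq 3) (mulLin (bq 2) (mulLin (bq 1) (mulLin (bq 0) baseL))))

/-- the remainder -/
def rhoL : List ℚ := addL mUL (smulL (-1) fullL)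

/-- truncated energy of the nodes -/
def Eq0 : ℚ := sumq ((List.range 20).map (fun j => 1 / powq 3 (2 * j + 3) * powq (resq j) 2))

end Pool.Agent.Lib.MP_76a7f5_an
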