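import Mathlib

/-!
# Definitions for the question on symmetric minimisers of the quadrature-node energy
-/

set_option autoImplicit false

namespace Pool.Agent.Lib.MP_76a7f5_an

open Finset

noncomputable section

/-- The function `g` of the problem. -/
def g (x : ℝ) : ℝ := if x = 0 then 2 / 3 else x⁻¹ * Real.log ((3 + x) / (3 - x))

/-- The energy `F_n`. -/
def F (n : ℕ) (x : Fin n → ℝ) : ℝ :=
  1 / (n : ℝ) * ∑ i, ∑ j, 1 / (3 - x i * x j) - ∑ i, g (x i)

/-- The cube `[-1,1]^n`. -/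
def cube (n : ℕ) : Set (Fin n → ℝ) := {x | ∀ i, -1 ≤ x i ∧ x i ≤ 1}

/-- `x` is `(a_1,…,a_m,-a_1,…,-a_m)` (n even) or `(a_1,…,a_m,0,-a_1,…,-a_m)` (n odd),
with all `a_j` in `[-1,1]`, where `m = n / 2`. -/
def IsSymmetric (n : ℕ) (x : Fin n → ℝ) : Prop :=
  ∃ a : ℕ → ℝ, (∀ j, -1 ≤ a j ∧ a j ≤ 1) ∧
    ∀ i : Fin n, x i = if (i : ℕ) < n / 2 then a i
      else if n - n / 2 ≤ (i : ℕ) then - a (i - (n - n / 2)) else 0

/-- power sums -/
def ps {n : ℕ} (x : Fin n → ℝ) (k : ℕ) : ℝ := ∑ i, x i ^ k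

/-- the moments of the uniform probability measure on `[-1,1]` -/
def tk (k : ℕ) : ℝ := if Even k then 1 / ((k : ℝ) + 1) else 0

/-- the constant by which the energy differs from the squared distance -/
def Cst : ℝ := ∑' k : ℕ, (1 / 3 : ℝ) ^ (k + 1) * (tk k) ^ 2

end

end Pool.Agent.Lib.MP_76a7f5_an
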