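import Pool.Agent.Lib.MP_76a7f5_an.Series

/-!
Existence of a global minimiser.
-/

namespace Pool.Agent.Lib.MP_76a7f5_an

open Finset

theorem g_contOn : ContinuousOn g (Set.Icc (-1) 1) := by
  have h1 : ∀ x ∈ Set.Icc (-1 : ℝ) 1,
      g x = ∑' k : ℕ, (1 / 3 : ℝ) ^ (k + 1) * (2 * tk k * x ^ k) := by
    intro x hx
    exact (g_hasSum x (abs_le.2 hx)).tsum_eq.symm
  refine ContinuousOn.congr ?_ h1
  refine continuousOn_tsum (u := fun k => (1 / 3 : ℝ) ^ (k + 1) * 2) ?_ ?_ ?_
  · intro k
    fun_prop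
  · have := (geo 0).summable
    exact this.mul_right 2
  · intro k x hx
    have hx' : |x| ≤ 1 := abs_le.2 hx
    rw [Real.norm_eq_abs, abs_mul, abs_of_nonneg (by positivity : (0 : ℝ) ≤ (1 / 3) ^ (k + 1))]
    refine mul_le_mul_of_nonneg_left ?_ (by positivity)
    rw [abs_mul, abs_mul, abs_of_nonneg (tk_nonneg k), abs_two, abs_pow]
    have h2 := tk_le_one k
    have h3 : |x| ^ k ≤ 1 := pow_le_one₀ (abs_nonneg _) hx'
    have h4 : 0 ≤ |x| ^ k := by positivity
    have h5 := tk_nonneg k
    nlinarith [mul_le_one₀ h2 h4 h3]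

theorem cube_compact (n : ℕ) : IsCompact (cube n) := by
  have : cube n = Set.pi Set.univ (fun _ => Set.Icc (-1 : ℝ) 1) := by
    ext x
    constructor
    · intro h i _
      exact h i
    · intro h i
      exact h i (Set.mem_univ i)
  rw [this]
  exact isCompact_univ_pi fun _ => isCompact_Icc

theorem F_contOn (n : ℕ) : ContinuousOn (F n) (cube n) := by
  unfold F
  refine ContinuousOn.sub (ContinuousOn.mul continuousOn_const ?_) ?_
  · refine continuousOn_finsetSum _ fun i _ => continuousOn_finsetSum _ fun j _ => ?_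
    refine ContinuousOn.div continuousOn_const (by fun_prop) ?_
    intro x hx
    have := abs_le.1 (abs_mul_le hx i j)
    intro h
    linarith [this.2]
  · refine continuousOn_finsetSum _ fun i _ => ?_
    exact g_contOn.comp (continuous_apply i).continuousOn (fun x hx => hx i)

theorem exists_min (n : ℕ) : ∃ x ∈ cube n, ∀ y ∈ cube n, F n x ≤ F n y := by
  have hne : (cube n).Nonempty := ⟨fun _ => 0, fun _ => by constructor <;> norm_num⟩
  obtain ⟨x, hx, h⟩ := (cube_compact n).exists_isMinOn hne (F_contOn n)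
  exact ⟨x, hx, fun y hy => h hy⟩

end Pool.Agent.Lib.MP_76a7f5_an
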