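import Pool.Agent.Lib.MP_76a7f5_an.Series
import Pool.Agent.Lib.MP_76a7f5_an.Alg

/-!
From a symmetric point to the sorted list of squares.
-/

namespace Pool.Agent.Lib.MP_76a7f5_an

open Finset

noncomputable section

lemma sum41 (f : ℕ → ℝ) : ∑ i : Fin 41, f i = (∑ i ∈ range 20, f i) + f 20 +
    ∑ i ∈ range 20, f (21 + i) := by
  rw [Fin.sum_univ_eq_sum_range f 41]
  rw [show (41 : ℕ) = 21 + 20 from rfl, Finset.sum_range_add, Finset.sum_range_succ]

lemma ps_symm (x : Fin 41 → ℝ) (a : ℕ → ℝ)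
    (h : ∀ i : Fin 41, x i = if (i : ℕ) < 41 / 2 then a i
      else if 41 - 41 / 2 ≤ (i : ℕ) then - a (i - (41 - 41 / 2)) else 0) (j : ℕ) :
    ps x (2 * (j + 1)) = 2 * ∑ i ∈ range 20, (a i ^ 2) ^ (j + 1) := by
  unfold ps
  have e : ∀ i : Fin 41, x i ^ (2 * (j + 1)) = (fun i : ℕ => (if i < 20 then a i
      else if 21 ≤ i then - a (i - 21) else 0) ^ (2 * (j + 1))) i := by
    intro i
    rw [h i]
  rw [Finset.sum_congr rfl fun i _ => e i]
  rw [sum41 (fun i : ℕ => (if i < 20 then a i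
      else if 21 ≤ i then - a (i - 21) else 0) ^ (2 * (j + 1)))]
  have e1 : ∀ i ∈ range 20, (if i < 20 then a i
      else if 21 ≤ i then - a (i - 21) else 0) ^ (2 * (j + 1)) = (a i ^ 2) ^ (j + 1) := by
    intro i hi
    rw [if_pos (Finset.mem_range.1 hi), pow_mul]
  have e2 : ∀ i ∈ range 20, (if 21 + i < 20 then a (21 + i)
      else if 21 ≤ 21 + i then - a (21 + i - 21) else 0) ^ (2 * (j + 1)) = (a i ^ 2) ^ (j + 1) := by
    intro i hi
    rw [if_neg (by omega), if_pos (by omega), pow_mul, neg_sq]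
    congr 3
    omega
  rw [Finset.sum_congr rfl e1, Finset.sum_congr rfl e2]
  have e3 : (if (20 : ℕ) < 20 then a 20
      else if 21 ≤ 20 then - a (20 - 21) else 0) ^ (2 * (j + 1)) = (0 : ℝ) := by
    rw [if_neg (by norm_num), if_neg (by norm_num)]
    exact zero_pow (by omega)
  rw [e3]
  ring

/-- core of the reduction: the even moments come from twenty squares -/
theorem reduce_core (x : Fin 41 → ℝ) (hxc : x ∈ cube 41) (b : ℕ → ℝ) (hb0 : ∀ i < 20, 0 ≤ b i)
    (hb1 : ∀ i < 20, b i ≤ 1)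
    (hps : ∀ j, ps x (2 * (j + 1)) = 2 * ∑ i ∈ range 20, b i ^ (j + 1)) :
    ∃ y : ℕ → ℝ, (∀ i j, i ≤ j → j < 20 → y i ≤ y j) ∧ (∀ i < 20, 0 ≤ y i) ∧ (∀ i < 20, y i ≤ 1) ∧
      Ey y ≤ F 41 x / 41 + Cst := by
  let f : Fin 20 → ℝ := fun i => b i
  have hf0 : ∀ i, 0 ≤ f i := fun i => hb0 i i.2
  have hf1 : ∀ i, f i ≤ 1 := fun i => hb1 i i.2
  let y : ℕ → ℝ := fun i => if h : i < 20 then f (Tuple.sort f ⟨i, h⟩) else 0
  have hmono := Tuple.monotone_sort f
  have hyv : ∀ i (h : i < 20), y i = f (Tuple.sort f ⟨i, h⟩) := fun i h => dif_pos h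
  refine ⟨y, ?_, ?_, ?_, ?_⟩
  · intro i j hij hj
    rw [hyv i (lt_of_le_of_lt hij hj), hyv j hj]
    exact hmono (by exact hij)
  · intro i hi
    rw [hyv i hi]; exact hf0 _
  · intro i hi
    rw [hyv i hi]; exact hf1 _
  · have h := energy_ge (n := 41) (by norm_num) x hxc ((range 20).image (fun j => 2 * (j + 1)))
    rw [Finset.sum_image (by intro i _ j _ h; simpa using h)] at h
    refine le_trans (le_of_eq ?_) (h.trans (le_of_eq ?_))
    · unfold Ey
      refine Finset.sum_congr rfl fun j _ => ?_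
      have h1 : Mj y j = ps x (2 * (j + 1)) / (41 : ℕ) := by
        rw [hps]
        unfold Mj
        have h2 : ∑ i ∈ range 20, y i ^ (j + 1) = ∑ i ∈ range 20, b i ^ (j + 1) := by
          rw [← Fin.sum_univ_eq_sum_range (fun i => y i ^ (j + 1)) 20,
            ← Fin.sum_univ_eq_sum_range (fun i => b i ^ (j + 1)) 20]
          have h3 : ∀ i : Fin 20, y i ^ (j + 1) = (fun i : Fin 20 => f i ^ (j + 1)) (Tuple.sort f i) := by
            intro i
            rw [hyv i i.2]
          rw [Finset.sum_congr rfl fun i _ => h3 i]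
          exact Equiv.sum_comp (Tuple.sort f) (fun i : Fin 20 => f i ^ (j + 1))
        rw [h2]
        push_cast
        ring
      rw [h1, tk_even]
      unfold wj Tj
      have e1 : (1 / 3 : ℝ) ^ (2 * (j + 1) + 1) = 1 / 3 ^ (2 * j + 3) := by
        rw [one_div_pow, show 2 * (j + 1) + 1 = 2 * j + 3 by ring]
      rw [e1]
      push_cast
      have e2 : (2 * ((j : ℝ) + 1) + 1) = 2 * (j : ℝ) + 3 := by ring
      rw [e2]
    · norm_num

theorem reduce (x : Fin 41 → ℝ) (hx : IsSymmetric 41 x) :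
    ∃ y : ℕ → ℝ, (∀ i j, i ≤ j → j < 20 → y i ≤ y j) ∧ (∀ i < 20, 0 ≤ y i) ∧ (∀ i < 20, y i ≤ 1) ∧
      Ey y ≤ F 41 x / 41 + Cst := by
  obtain ⟨a, ha, hxa⟩ := hx
  have hxc : x ∈ cube 41 := by
    intro i
    rw [hxa i]
    split_ifs
    · exact ha _
    · have := ha (i - (41 - 41 / 2))
      constructor <;> linarith [this.1, this.2]
    · constructor <;> norm_num
  exact reduce_core x hxc (fun i => a i ^ 2) (fun i _ => sq_nonneg _)
    (fun i _ => by
      have := ha i
      show a i ^ 2 ≤ 1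
      nlinarith [this.1, this.2]) (ps_symm x a hxa)

/-- the same for every configuration which is mirror symmetric up to the order of the nodes -/
theorem reduce_mirror (x : Fin 41 → ℝ) (hxc : x ∈ cube 41) (σ : Equiv.Perm (Fin 41))
    (hσ : ∀ i, x (σ i) = - x i) :
    ∃ y : ℕ → ℝ, (∀ i j, i ≤ j → j < 20 → y i ≤ y j) ∧ (∀ i < 20, 0 ≤ y i) ∧ (∀ i < 20, y i ≤ 1) ∧
      Ey y ≤ F 41 x / 41 + Cst := by
  have h1 := Tuple.monotone_sort x
  have h2 : Monotone (x ∘ ((Fin.revPerm.trans (Tuple.sort x)).trans σ)) := by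
    intro i j hij
    simp only [Function.comp_apply, Equiv.trans_apply, hσ]
    have := h1 (Fin.rev_le_rev.2 hij)
    simp only [Function.comp_apply] at this
    simpa using this
  have h3 := Tuple.unique_monotone h1 h2
  have h4 : ∀ i : Fin 41, x (Tuple.sort x i) = - x (Tuple.sort x (Fin.rev i)) := by
    intro i
    have := congrFun h3 i
    simpa only [Function.comp_apply, Equiv.trans_apply, hσ, Fin.revPerm_apply] using this
  let s : ℕ → ℝ := fun i => if h : i < 41 then x (Tuple.sort x ⟨i, h⟩) else 0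
  have hs : ∀ i (h : i < 41), s i = x (Tuple.sort x ⟨i, h⟩) := fun i h => dif_pos h
  have hsr : ∀ i, i < 41 → s i = - s (40 - i) := by
    intro i hi
    rw [hs i hi, hs (40 - i) (by omega), h4]
    congr 3
    apply Fin.ext
    simp only [Fin.val_rev]
    omega
  refine reduce_core x hxc (fun i => s i ^ 2) (fun i _ => sq_nonneg _) ?_ ?_
  · intro i hi
    show s i ^ 2 ≤ 1
    rw [hs i (by omega)]
    have := hxc (Tuple.sort x ⟨i, by omega⟩)
    nlinarith [this.1, this.2]
  · intro j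
    have e1 : ps x (2 * (j + 1)) = ∑ i : Fin 41, (fun i : ℕ => (s i ^ 2) ^ (j + 1)) i := by
      unfold ps
      rw [← Equiv.sum_comp (Tuple.sort x) (fun i => x i ^ (2 * (j + 1)))]
      refine Finset.sum_congr rfl fun i _ => ?_
      simp only [hs i i.2, Fin.eta]
      rw [pow_mul]
    rw [e1, sum41 (fun i : ℕ => (s i ^ 2) ^ (j + 1))]
    have e2 : ∑ i ∈ range 20, (s (21 + i) ^ 2) ^ (j + 1) = ∑ i ∈ range 20, (s i ^ 2) ^ (j + 1) := by
      rw [← Finset.sum_range_reflect (fun i => (s i ^ 2) ^ (j + 1)) 20]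
      refine Finset.sum_congr rfl fun i hi => ?_
      have hi' := Finset.mem_range.1 hi
      rw [hsr (21 + i) (by omega), neg_sq]
      congr 3
      omega
    have e3 : (s 20 ^ 2) ^ (j + 1) = 0 := by
      have h5 := hsr 20 (by norm_num)
      have h6 : s 20 = 0 := by
        have : s 20 = - s 20 := h5
        linarith
      rw [h6]
      simp
    rw [e2, e3]
    ring

end

end Pool.Agent.Lib.MP_76a7f5_an
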