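import Pool.Agent.Lib.MP_76a7f5_an.Series

/-!
# Row B: an explicit asymmetric point of small energy
-/

set_option autoImplicit false

namespace Pool.Agent.Lib.MP_76a7f5_an

open Finset

/-- the coordinates, times `10 ^ 18` -/
def ca : Fin 41 → ℤ :=
  ![-980839556229734226, -904205668202514260, -904205668202514260, -828820664819509588,
    -736684604607993995, -736684604607993995, -736684604607993995, -622883365528751439,
    -524410911928464247, -524410911928464247, -524410911928464247, -508613931269939751,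
    -302217926702320263, -302217926702320263, -302217926702320263, -302217926702320263,
    -256665108707280902, -64565113279157507, -64565113279157507, -64565113279157507,
    -64565113279157507, 91343624754236712, 91343624754236712, 91343624754236712,
    218185096482362606, 309076332175799425, 309076332175799425, 309076332175799425,
    309076332175799425, 483905274596314200, 532169997631361557, 532169997631361557,
    532169997631361557, 619061333170454651, 736906113234743766, 736906113234743766,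
    736906113234743766, 828658247626277646, 904220315233987159, 904220315233987159,
    980837554587923007]

/-- the point -/
def xa (i : Fin 41) : ℚ := (ca i : ℚ) / 10 ^ 18

/-- a common multiple of `1, 3, ..., 65` -/
def LL : ℤ := 18472920064106597929865025

/-- the scaled moments of the uniform measure -/
def lt (k : ℕ) : ℤ := if Even k then LL / ((k : ℤ) + 1) else 0

/-- the scaled moment errors -/
def AA (k : ℕ) : ℤ := LL * (∑ i, ca i ^ k) * (10 ^ 18) ^ (65 - k) - 41 * lt k * (10 ^ 18) ^ 65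

theorem check : 2 * 10 ^ 27 * (∑ k ∈ range 66, 3 ^ (65 - k) * AA k ^ 2) +
    10 ^ 27 * (41 * LL * (10 ^ 18) ^ 65) ^ 2 ≤ 2 * 1084 * 3 ^ 66 * (41 * LL * (10 ^ 18) ^ 65) ^ 2 := by
  decide +kernel

theorem lt_check : ∀ k : ℕ, k < 66 → Even k → ((k : ℤ) + 1) * lt k = LL := by
  decide +kernel

theorem ca_check : ∀ i, -(10 ^ 18) ≤ ca i ∧ ca i ≤ 10 ^ 18 := by
  decide +kernel

theorem lt_eq (k : ℕ) (hk : k < 66) : (lt k : ℝ) = (LL : ℝ) * tk k := by
  by_cases h : Even k
  · have h1 := lt_check k hk h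
    have h2 : tk k = 1 / ((k : ℝ) + 1) := by unfold tk; rw [if_pos h]
    have h3 : ((k : ℝ) + 1) * (lt k : ℝ) = (LL : ℝ) := by exact_mod_cast h1
    rw [h2, ← h3]
    have : ((k : ℝ) + 1) ≠ 0 := by positivity
    field_simp
  · have h1 : lt k = 0 := by unfold lt; rw [if_neg h]
    have h2 : tk k = 0 := by unfold tk; rw [if_neg h]
    rw [h1, h2]; simp

theorem ps_eq (k : ℕ) : ps (fun i => (xa i : ℝ)) k = ((∑ i, ca i ^ k : ℤ) : ℝ) / (10 ^ 18) ^ k := by
  unfold ps xa
  push_cast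
  rw [Finset.sum_div]
  refine Finset.sum_congr rfl fun i _ => ?_
  rw [div_pow]

theorem xa_mem : (fun i => (xa i : ℝ)) ∈ cube 41 := by
  intro i
  obtain ⟨h1, h2⟩ := ca_check i
  have h1' : (-(10 ^ 18) : ℝ) ≤ (ca i : ℝ) := by exact_mod_cast h1
  have h2' : (ca i : ℝ) ≤ 10 ^ 18 := by exact_mod_cast h2
  show -1 ≤ ((xa i : ℚ) : ℝ) ∧ ((xa i : ℚ) : ℝ) ≤ 1
  unfold xa
  push_cast
  constructor
  · rw [le_div_iff₀ (by positivity)]; linarith
  · rw [div_le_iff₀ (by positivity)]; linarith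

theorem LL_pos : (0 : ℝ) < (LL : ℝ) := by
  have : (0 : ℤ) < LL := by decide +kernel
  exact_mod_cast this

theorem term_eq (k : ℕ) (hk : k < 66) :
    (1 / 3 : ℝ) ^ (k + 1) * (ps (fun i => (xa i : ℝ)) k / (41 : ℕ) - tk k) ^ 2 =
      (3 ^ (65 - k) * (AA k : ℝ) ^ 2) / (3 ^ 66 * (41 * (LL : ℝ) * (10 ^ 18) ^ 65) ^ 2) := by
  have hL := LL_pos
  have hAA : (AA k : ℝ) = (LL : ℝ) * ((∑ i, ca i ^ k : ℤ) : ℝ) * (10 ^ 18) ^ (65 - k) -
      41 * ((LL : ℝ) * tk k) * (10 ^ 18) ^ 65 := by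
    rw [← lt_eq k hk]
    unfold AA
    push_cast
    ring
  have h3 : (3 : ℝ) ^ 66 = 3 ^ (65 - k) * 3 ^ (k + 1) := by
    rw [← pow_add]; congr 1; omega
  have h10 : ((10 : ℝ) ^ 18) ^ 65 = (10 ^ 18) ^ (65 - k) * (10 ^ 18) ^ k := by
    rw [← pow_add]; congr 1; omega
  have hfac : (AA k : ℝ) = (41 * (LL : ℝ) * (10 ^ 18) ^ 65) *
      (ps (fun i => (xa i : ℝ)) k / (41 : ℕ) - tk k) := by
    rw [hAA, ps_eq, h10]
    have : ((10 : ℝ) ^ 18) ^ k ≠ 0 := by positivity
    push_cast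
    field_simp
  rw [hfac, h3, one_div_pow]
  have h1 : (41 * (LL : ℝ) * (10 ^ 18) ^ 65) ≠ 0 := by positivity
  have h2 : (3 : ℝ) ^ (65 - k) ≠ 0 := by positivity
  have h4 : (3 : ℝ) ^ (k + 1) ≠ 0 := by positivity
  generalize (41 * (LL : ℝ) * (10 ^ 18) ^ 65) = Q at h1
  generalize (ps (fun i => (xa i : ℝ)) k / (41 : ℕ) - tk k) = e
  field_simp

/-- (B) -/
theorem upper : F 41 (fun i => (xa i : ℝ)) / 41 + Cst ≤ 1084 / 10 ^ 27 := by
  have h := energy_le (n := 41) (by norm_num) _ xa_mem 66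
  have hsum : (∑ k ∈ range 66, (1 / 3 : ℝ) ^ (k + 1) *
      (ps (fun i => (xa i : ℝ)) k / (41 : ℕ) - tk k) ^ 2) =
      ((∑ k ∈ range 66, 3 ^ (65 - k) * AA k ^ 2 : ℤ) : ℝ) /
        (3 ^ 66 * (41 * (LL : ℝ) * (10 ^ 18) ^ 65) ^ 2) := by
    push_cast
    rw [Finset.sum_div]
    exact Finset.sum_congr rfl fun k hk => term_eq k (Finset.mem_range.mp hk)
  rw [hsum] at h
  have hc : (2 * 10 ^ 27 * ((∑ k ∈ range 66, 3 ^ (65 - k) * AA k ^ 2 : ℤ) : ℝ) +
      10 ^ 27 * (41 * (LL : ℝ) * (10 ^ 18) ^ 65) ^ 2) ≤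
      2 * 1084 * 3 ^ 66 * (41 * (LL : ℝ) * (10 ^ 18) ^ 65) ^ 2 := by
    exact_mod_cast check
  have hL := LL_pos
  have hQ : 0 < (41 * (LL : ℝ) * (10 ^ 18) ^ 65) ^ 2 := by positivity
  have e : ((41 : ℕ) : ℝ) = 41 := by norm_num
  rw [e] at h
  refine h.trans ?_
  generalize ((∑ k ∈ range 66, 3 ^ (65 - k) * AA k ^ 2 : ℤ) : ℝ) = X at hc
  generalize (41 * (LL : ℝ) * (10 ^ 18) ^ 65) ^ 2 = Q at hc hQ
  rw [one_div_pow, div_div, div_add_div _ _ (by positivity) (by positivity),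
    div_le_div_iff₀ (by positivity) (by positivity)]
  nlinarith

end Pool.Agent.Lib.MP_76a7f5_an
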