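import Pool.Agent.Lib.MP_76a7f5_an.Lower
import Pool.Agent.Lib.MP_76a7f5_an.Reduce
import Pool.Agent.Lib.MP_76a7f5_an.Upper

/-!
Assembly: no symmetric point is a global minimiser for `n = 41`.
-/

namespace Pool.Agent.Lib.MP_76a7f5_an

open Finset Polynomial

noncomputable section

lemma ar_lt : ∀ k < 5, ar k < ar (k + 1) := by
  intro k hk
  unfold ar
  exact_mod_cast aq_mono k hk

lemma ar5 : ar 5 = 1 := by
  unfold ar aq
  norm_num

lemma ar0 : 0 ≤ ar 0 := by
  unfold ar aq
  norm_num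

lemma cI_lt : ∀ k < 5, cI k < 20 := by decide

lemma q_left : ∀ i < 20, ∀ k < 5, i < cI k → xsL.getD i 0 ≤ aq k := by decide +kernel

lemma q_right : ∀ i < 20, ∀ k < 5, cI k < i → aq (k + 1) ≤ xsL.getD i 0 := by decide +kernel

lemma q_x0 : ∀ i < 20, aq 0 ≤ xsL.getD i 0 := by decide +kernel

lemma q_xb : ∀ k < 5, xsL.getD (cI k) 0 = bq k := by decide +kernel

lemma q_loN : ∀ l < 5, aq l ≤ loN l := by decide +kernel

lemma q_hiN : ∀ l < 5, hiN l ≤ aq (l + 1) := by decide +kernel

lemma q_pos : ∀ k < 5, 0 ≤ aq k := by decide +kernel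

section
variable (y : ℕ → ℝ) (hy : ∀ i j, i ≤ j → j < 20 → y i ≤ y j)
  (hy0 : ∀ i < 20, 0 ≤ y i) (hy1 : ∀ i < 20, y i ≤ 1)

/-- the moved nodes -/
def Sy (y : ℕ → ℝ) : ℕ → ℝ := clampS ar cI y

/-- the gain of a particle -/
def Iy (y : ℕ → ℝ) (i : ℕ) : ℝ := ∫ t in (y i)..(xr i), PiS ar (Sy y) t * omr t

include hy hy0 hy1

lemma Iy_nonneg {i : ℕ} (hi : i < 20) : 0 ≤ Iy y i := by
  refine int_nonneg ar_lt ar5 ar0 cI_lt ?_ ?_ ?_ hy hy0 hy1 omr omr_cont
    (fun t ht => eval_omL_nonneg ht) hi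
  · intro i hi k hk h
    unfold xr ar
    exact_mod_cast q_left i hi k hk h
  · intro i hi k hk h
    unfold xr ar
    exact_mod_cast q_right i hi k hk h
  · intro i hi
    unfold xr ar
    exact_mod_cast q_x0 i hi

lemma Iy_single {k : ℕ} (hk : k < 5) :
    ∫ t in (Sy y k)..(br k), PiS ar (Sy y) t * omr t ≤ Iy y (cI k) := by
  have hxb : ∀ k < 5, xr (cI k) = br k := by
    intro k hk
    unfold xr br
    exact_mod_cast q_xb k hk
  have h := int_single (a := ar) (b := br) (c := cI) (xs := xr) (y := y) ar_lt ar5 ar0 cI_lt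
    (by
      intro i hi k hk h
      unfold xr ar
      exact_mod_cast q_left i hi k hk h)
    (by
      intro i hi k hk h
      unfold xr ar
      exact_mod_cast q_right i hi k hk h)
    (by
      intro i hi
      unfold xr ar
      exact_mod_cast q_x0 i hi)
    (by
      intro k hk
      unfold ar br
      exact ⟨by exact_mod_cast (ab_lt k hk).1, by exact_mod_cast (ab_lt k hk).2⟩)
    hxb hy hy0 hy1 omr omr_cont (fun t ht => eval_omL_nonneg ht) hk
  unfold Iy
  rw [hxb k hk]
  exact h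

/-- the sum of all gains dominates the gains of the simple nodes -/
lemma sum_ge : ∑ k ∈ range 5, Iy y (cI k) ≤ ∑ i ∈ range 20, Iy y i := by
  have hinj : Set.InjOn cI (range 5 : Finset ℕ) := by
    intro i hi j hj h
    simp only [Finset.coe_range, Set.mem_Iio] at hi hj
    interval_cases i <;> interval_cases j <;> simp_all [cI]
  rw [← Finset.sum_image (f := fun i => Iy y i) hinj]
  refine Finset.sum_le_sum_of_subset_of_nonneg ?_ ?_
  · intro i hi
    rw [Finset.mem_image] at hi
    obtain ⟨k, hk, rfl⟩ := hi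
    exact Finset.mem_range.2 (cI_lt k (Finset.mem_range.1 hk))
  · intro i hi _
    exact Iy_nonneg y hy hy0 hy1 (Finset.mem_range.1 hi)

omit hy hy0 hy1 in
lemma main_ineq :
    ((Eq0 : ℚ) : ℝ) + 4 / 41 * (∑ i ∈ range 20, Iy y i) - NN (mU - QS (Sy y)) ≤ Ey y := by
  have h := energy_lower xr y mU (mU - QS (Sy y)) (QS (Sy y)) mU_deg (P_deg _) (by ring) mU_coeff
  rw [Ey_xr] at h
  refine le_trans (le_of_eq ?_) h
  unfold Iy
  simp only [QS_eval]

omit hy hy0 hy1 in
lemma Sy_box : ∀ k < 5, ar k ≤ Sy y k ∧ Sy y k ≤ ar (k + 1) :=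
  fun k hk => ⟨clamp_ge ar cI y k, clamp_le ar_lt cI y hk⟩

lemma far_gain3 : (1327 / 10000000000000000000000000 : ℝ) * (Sy y 3 - br 3) ^ 2 ≤ Iy y (cI 3) := by
  refine le_trans ?_ (Iy_single y hy hy0 hy1 (k := 3) (by norm_num))
  have h := gain_both aq aq1 (Sy y) 3 (by norm_num) (fun l _ => le_rfl) (fun l _ => le_rfl)
    (q_pos 3 (by norm_num)) (Sy_box y) _ _ (by norm_num) (by norm_num) _ _ c_gF3L c_gF3R
    2 2 (by norm_num) (by norm_num) (by decide +kernel) (by decide +kernel)
    (1327 / 10000000000000000000000000) (by decide +kernel) (by decide +kernel)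
  push_cast at h
  exact h

lemma far_gain4 : (2858 / 1000000000000000000000000 : ℝ) * (Sy y 4 - br 4) ^ 2 ≤ Iy y (cI 4) := by
  refine le_trans ?_ (Iy_single y hy hy0 hy1 (k := 4) (by norm_num))
  have h := gain_both aq aq1 (Sy y) 4 (by norm_num) (fun l _ => le_rfl) (fun l _ => le_rfl)
    (q_pos 4 (by norm_num)) (Sy_box y) _ _ (by norm_num) (by norm_num) _ _ c_gF4L c_gF4R
    2 0 (by norm_num) (by norm_num) (by decide +kernel) (by decide +kernel)
    (2858 / 1000000000000000000000000) (by decide +kernel) (by decide +kernel)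
  push_cast at h
  exact h

/-- the near box -/
def Near (y : ℕ → ℝ) : Prop := ∀ k < 5, (loN k : ℝ) ≤ Sy y k ∧ Sy y k ≤ (hiN k : ℝ)

lemma near_gain0 (hN : Near y) :
    (548 / 100000000000000000000000000 : ℝ) * (Sy y 0 - br 0) ^ 2 ≤ Iy y (cI 0) := by
  refine le_trans ?_ (Iy_single y hy hy0 hy1 (k := 0) (by norm_num))
  have h := gain_both loN hiN (Sy y) 0 (by norm_num) q_loN q_hiN
    (q_pos 0 (by norm_num)) hN _ _ (by norm_num) (by norm_num) _ _ c_gN0L c_gN0R
    1 2 (by norm_num) (by norm_num) (by decide +kernel) (by decide +kernel)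
    (548 / 100000000000000000000000000) (by decide +kernel) (by decide +kernel)
  push_cast at h
  exact h

lemma near_gain1 (hN : Near y) :
    (304 / 100000000000000000000000000 : ℝ) * (Sy y 1 - br 1) ^ 2 ≤ Iy y (cI 1) := by
  refine le_trans ?_ (Iy_single y hy hy0 hy1 (k := 1) (by norm_num))
  have h := gain_both loN hiN (Sy y) 1 (by norm_num) q_loN q_hiN
    (q_pos 1 (by norm_num)) hN _ _ (by norm_num) (by norm_num) _ _ c_gN1L c_gN1R
    2 2 (by norm_num) (by norm_num) (by decide +kernel) (by decide +kernel)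
    (304 / 100000000000000000000000000) (by decide +kernel) (by decide +kernel)
  push_cast at h
  exact h

lemma near_gain2 (hN : Near y) :
    (307 / 10000000000000000000000000 : ℝ) * (Sy y 2 - br 2) ^ 2 ≤ Iy y (cI 2) := by
  refine le_trans ?_ (Iy_single y hy hy0 hy1 (k := 2) (by norm_num))
  have h := gain_both loN hiN (Sy y) 2 (by norm_num) q_loN q_hiN
    (q_pos 2 (by norm_num)) hN _ _ (by norm_num) (by norm_num) _ _ c_gN2L c_gN2R
    2 1 (by norm_num) (by norm_num) (by decide +kernel) (by decide +kernel)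
    (307 / 10000000000000000000000000) (by decide +kernel) (by decide +kernel)
  push_cast at h
  exact h

lemma near_gain3 (hN : Near y) :
    (313 / 1000000000000000000000000 : ℝ) * (Sy y 3 - br 3) ^ 2 ≤ Iy y (cI 3) := by
  refine le_trans ?_ (Iy_single y hy hy0 hy1 (k := 3) (by norm_num))
  have h := gain_both loN hiN (Sy y) 3 (by norm_num) q_loN q_hiN
    (q_pos 3 (by norm_num)) hN _ _ (by norm_num) (by norm_num) _ _ c_gN3L c_gN3R
    2 1 (by norm_num) (by norm_num) (by decide +kernel) (by decide +kernel)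
    (313 / 1000000000000000000000000) (by decide +kernel) (by decide +kernel)
  push_cast at h
  exact h

lemma near_gain4 (hN : Near y) :
    (286 / 10000000000000000000000 : ℝ) * (Sy y 4 - br 4) ^ 2 ≤ Iy y (cI 4) := by
  refine le_trans ?_ (Iy_single y hy hy0 hy1 (k := 4) (by norm_num))
  have h := gain_both loN hiN (Sy y) 4 (by norm_num) q_loN q_hiN
    (q_pos 4 (by norm_num)) hN _ _ (by norm_num) (by norm_num) _ _ c_gN4L c_gN4R
    1 0 (by norm_num) (by norm_num) (by decide +kernel) (by decide +kernel)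
    (286 / 10000000000000000000000) (by decide +kernel) (by decide +kernel)
  push_cast at h
  exact h

omit hy hy0 hy1 in
lemma EqR : (10841 / 10000000000000000000000000000 : ℝ) ≤ ((Eq0 : ℚ) : ℝ) := by
  have h : ((10841 / 10000000000000000000000000000 : ℚ) : ℝ) ≤ ((Eq0 : ℚ) : ℝ) := by
    exact_mod_cast n_E
  refine le_trans (le_of_eq ?_) h
  push_cast
  norm_num

omit hy hy0 hy1 in
lemma not_near (h3 : |Sy y 3 - br 3| ≤ 74 / 1000) (h4 : |Sy y 4 - br 4| ≤ 16 / 1000) :
    Near y := by
  have hb := Sy_box y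
  rw [abs_le] at h3 h4
  intro k hk
  interval_cases k
  · exact hb 0 (by norm_num)
  · exact hb 1 (by norm_num)
  · exact hb 2 (by norm_num)
  · unfold br at h3
    simp only [loN, hiN]
    push_cast
    constructor <;> linarith [h3.1, h3.2]
  · unfold br at h4
    simp only [loN, hiN]
    push_cast
    constructor <;> linarith [h4.1, h4.2]

/-- the lower bound -/
theorem lower : (1084 / 1000000000000000000000000000 : ℝ) < Ey y := by
  have hE := EqR
  have hm := main_ineq y
  by_cases h3 : |Sy y 3 - br 3| ≤ 74 / 1000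
  · by_cases h4 : |Sy y 4 - br 4| ≤ 16 / 1000
    · have hN := not_near y h3 h4
      have hb := near_bound (Sy y) hN
      have hs := sum_ge y hy hy0 hy1
      simp only [Finset.sum_range_succ _ 4, Finset.sum_range_succ _ 3, Finset.sum_range_succ _ 2,
        Finset.sum_range_succ _ 1, Finset.sum_range_succ _ 0, Finset.sum_range_zero] at hs
      have g0 := near_gain0 y hy hy0 hy1 hN
      have g1 := near_gain1 y hy hy0 hy1 hN
      have g2 := near_gain2 y hy hy0 hy1 hN
      have g3 := near_gain3 y hy hy0 hy1 hN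
      have g4 := near_gain4 y hy hy0 hy1 hN
      have e : ∀ k, (br k - Sy y k) ^ 2 = (Sy y k - br k) ^ 2 := fun k => by ring
      rw [e, e, e, e, e] at hb
      have p0 := sq_nonneg (Sy y 0 - br 0)
      have p1 := sq_nonneg (Sy y 1 - br 1)
      have p2 := sq_nonneg (Sy y 2 - br 2)
      have p3 := sq_nonneg (Sy y 3 - br 3)
      have p4 := sq_nonneg (Sy y 4 - br 4)
      generalize (Sy y 0 - br 0) ^ 2 = d0 at *
      generalize (Sy y 1 - br 1) ^ 2 = d1 at *
      generalize (Sy y 2 - br 2) ^ 2 = d2 at *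
      generalize (Sy y 3 - br 3) ^ 2 = d3 at *
      generalize (Sy y 4 - br 4) ^ 2 = d4 at *
      linarith
    · rw [not_le] at h4
      have hb := far_bound (Sy y) (Sy_box y)
      have g4 := far_gain4 y hy hy0 hy1
      have hs : Iy y (cI 4) ≤ ∑ i ∈ range 20, Iy y i :=
        Finset.single_le_sum (f := fun i => Iy y i)
          (fun i hi => Iy_nonneg y hy hy0 hy1 (Finset.mem_range.1 hi))
          (Finset.mem_range.2 (cI_lt 4 (by norm_num)))
      have hsq : (16 / 1000 : ℝ) ^ 2 ≤ (Sy y 4 - br 4) ^ 2 := by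
        rw [← sq_abs (Sy y 4 - br 4)]
        exact pow_le_pow_left₀ (by norm_num) h4.le 2
      generalize (Sy y 4 - br 4) ^ 2 = d4 at *
      norm_num at hsq
      linarith
  · rw [not_le] at h3
    have hb := far_bound (Sy y) (Sy_box y)
    have g3 := far_gain3 y hy hy0 hy1
    have hs : Iy y (cI 3) ≤ ∑ i ∈ range 20, Iy y i :=
      Finset.single_le_sum (f := fun i => Iy y i)
        (fun i hi => Iy_nonneg y hy hy0 hy1 (Finset.mem_range.1 hi))
        (Finset.mem_range.2 (cI_lt 3 (by norm_num)))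
    have hsq : (74 / 1000 : ℝ) ^ 2 ≤ (Sy y 3 - br 3) ^ 2 := by
      rw [← sq_abs (Sy y 3 - br 3)]
      exact pow_le_pow_left₀ (by norm_num) h3.le 2
    generalize (Sy y 3 - br 3) ^ 2 = d3 at *
    norm_num at hsq
    linarith

end

lemma better_of_y (x : Fin 41 → ℝ) (h : ∃ y : ℕ → ℝ, (∀ i j, i ≤ j → j < 20 → y i ≤ y j) ∧
    (∀ i < 20, 0 ≤ y i) ∧ (∀ i < 20, y i ≤ 1) ∧ Ey y ≤ F 41 x / 41 + Cst) :
    F 41 (fun i => (xa i : ℝ)) < F 41 x := by
  obtain ⟨y, hy, hy0, hy1, hyE⟩ := h
  have h1 := lower y hy hy0 hy1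
  have h2 := upper
  have h3 : (1084 / 10 ^ 27 : ℝ) = 1084 / 1000000000000000000000000000 := by norm_num
  rw [h3] at h2
  linarith

/-- for every symmetric point the explicit asymmetric point has smaller energy -/
theorem asymmetric_better (x : Fin 41 → ℝ) (hx : IsSymmetric 41 x) :
    F 41 (fun i => (xa i : ℝ)) < F 41 x :=
  better_of_y x (reduce x hx)

/-- the same for every configuration which is mirror symmetric up to the order of its nodes -/
theorem asymmetric_better_mirror (x : Fin 41 → ℝ) (hxc : x ∈ cube 41) (σ : Equiv.Perm (Fin 41))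
    (hσ : ∀ i, x (σ i) = - x i) : F 41 (fun i => (xa i : ℝ)) < F 41 x :=
  better_of_y x (reduce_mirror x hxc σ hσ)

end

end Pool.Agent.Lib.MP_76a7f5_an
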