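import Mathlib

/-!
MP_76a7f5_an, row GI: two one variable integral inequalities.
-/

namespace Pool.Agent.Lib.MP_76a7f5_an

open MeasureTheory intervalIntegral

/-- The model integral: `∫_b^s c (A-t)^p (s-t) dt` is at least `c (A-b)^p (s-b)^2 / (p+2)`. -/
theorem gain_model (p : ℕ) (hp : p ≤ 2) (b s A c : ℝ) (hbs : b ≤ s) (hsA : s ≤ A) (hc : 0 ≤ c) :
    c * (A - b) ^ p / (p + 2) * (s - b) ^ 2 ≤ ∫ t in b..s, c * (A - t) ^ p * (s - t) := by
  have hD : 0 ≤ s - b := sub_nonneg.2 hbs
  have hH : s - b ≤ A - b := by linarith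
  interval_cases p
  · have h1 : ∀ t ∈ Set.uIcc b s, HasDerivAt (fun t => -(c * ((s - t) ^ 2 / 2)))
        (c * (A - t) ^ 0 * (s - t)) t := by
      intro t _
      have h2 : HasDerivAt (fun t : ℝ => s - t) (-1) t := by
        simpa using (hasDerivAt_id t).const_sub s
      have h3 := (((h2.pow 2).div_const 2).const_mul c).neg
      refine h3.congr_deriv ?_
      push_cast
      ring
    rw [integral_eq_sub_of_hasDerivAt h1 (by
      apply Continuous.intervalIntegrable
      fun_prop)]
    have : c * (A - b) ^ 0 / (((0 : ℕ) : ℝ) + 2) * (s - b) ^ 2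
        = -(c * ((s - s) ^ 2 / 2)) - -(c * ((s - b) ^ 2 / 2)) := by
      push_cast
      ring
    exact this.le
  · have h1 : ∀ t ∈ Set.uIcc b s, HasDerivAt
        (fun t => -(c * ((A - s) * ((s - t) ^ 2 / 2) + (s - t) ^ 3 / 3)))
        (c * (A - t) ^ 1 * (s - t)) t := by
      intro t _
      have h2 : HasDerivAt (fun t : ℝ => s - t) (-1) t := by
        simpa using (hasDerivAt_id t).const_sub s
      have h3 := (((((h2.pow 2).div_const 2).const_mul (A - s)).add
        ((h2.pow 3).div_const 3)).const_mul c).neg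
      refine h3.congr_deriv ?_
      push_cast
      ring
    rw [integral_eq_sub_of_hasDerivAt h1 (by
      apply Continuous.intervalIntegrable
      fun_prop)]
    have key : 0 ≤ c * ((s - b) ^ 2 * ((A - b) - (s - b))) := by
      apply mul_nonneg hc
      apply mul_nonneg (sq_nonneg _)
      linarith
    have e1 : c * (A - b) ^ 1 / (((1 : ℕ) : ℝ) + 2) * (s - b) ^ 2
        = c * (A - b) * (s - b) ^ 2 / 3 := by
      push_cast
      ring
    rw [e1]
    nlinarith [key]
  · have h1 : ∀ t ∈ Set.uIcc b s, HasDerivAt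
        (fun t => -(c * ((A - s) ^ 2 * ((s - t) ^ 2 / 2) + 2 * (A - s) * ((s - t) ^ 3 / 3)
          + (s - t) ^ 4 / 4)))
        (c * (A - t) ^ 2 * (s - t)) t := by
      intro t _
      have h2 : HasDerivAt (fun t : ℝ => s - t) (-1) t := by
        simpa using (hasDerivAt_id t).const_sub s
      have h3 := ((((((h2.pow 2).div_const 2).const_mul ((A - s) ^ 2)).add
        (((h2.pow 3).div_const 3).const_mul (2 * (A - s)))).add
        ((h2.pow 4).div_const 4)).const_mul c).neg
      refine h3.congr_deriv ?_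
      push_cast
      ring
    rw [integral_eq_sub_of_hasDerivAt h1 (by
      apply Continuous.intervalIntegrable
      fun_prop)]
    have key : 0 ≤ c * ((s - b) ^ 2 * ((3 * (A - b) - (s - b)) * ((A - b) - (s - b)))) := by
      apply mul_nonneg hc
      apply mul_nonneg (sq_nonneg _)
      apply mul_nonneg <;> linarith
    have e1 : c * (A - b) ^ 2 / (((2 : ℕ) : ℝ) + 2) * (s - b) ^ 2
        = c * (A - b) ^ 2 * (s - b) ^ 2 / 4 := by
      push_cast
      ring
    rw [e1]
    have e2 : -(c * ((A - s) ^ 2 * ((s - s) ^ 2 / 2) + 2 * (A - s) * ((s - s) ^ 3 / 3)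
          + (s - s) ^ 4 / 4)) -
        -(c * ((A - s) ^ 2 * ((s - b) ^ 2 / 2) + 2 * (A - s) * ((s - b) ^ 3 / 3)
          + (s - b) ^ 4 / 4))
        = c * (A - b) ^ 2 * (s - b) ^ 2 / 4
          + c * ((s - b) ^ 2 * ((3 * (A - b) - (s - b)) * ((A - b) - (s - b)))) / 12 := by
      ring
    rw [e2]
    linarith

theorem gainR (p : ℕ) (hp : p ≤ 2) (f : ℝ → ℝ) (hf : Continuous f) (b s A c : ℝ)
    (hbs : b ≤ s) (hsA : s ≤ A) (hc : 0 ≤ c)
    (h : ∀ t, b ≤ t → t ≤ s → c * (A - t) ^ p * (s - t) ≤ - f t) :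
    c * (A - b) ^ p / (p + 2) * (s - b) ^ 2 ≤ ∫ t in s..b, f t := by
  refine (gain_model p hp b s A c hbs hsA hc).trans ?_
  rw [integral_symm b s, ← intervalIntegral.integral_neg]
  refine intervalIntegral.integral_mono_on hbs ?_ ?_ ?_
  · apply Continuous.intervalIntegrable
    fun_prop
  · exact hf.neg.intervalIntegrable _ _
  · intro t ht
    exact h t ht.1 ht.2

theorem gainL (p : ℕ) (hp : p ≤ 2) (f : ℝ → ℝ) (hf : Continuous f) (b s A c : ℝ)
    (hsb : s ≤ b) (hAs : A ≤ s) (hc : 0 ≤ c)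
    (h : ∀ t, s ≤ t → t ≤ b → c * (t - A) ^ p * (t - s) ≤ f t) :
    c * (b - A) ^ p / (p + 2) * (s - b) ^ 2 ≤ ∫ t in s..b, f t := by
  have h1 := gainR p hp (fun t => - f (-t)) (hf.comp continuous_neg).neg (-b) (-s) (-A) c
    (neg_le_neg hsb) (neg_le_neg hAs) hc (by
      intro t h1 h2
      have := h (-t) (by linarith) (by linarith)
      simp only [neg_neg]
      have e : c * (-A - t) ^ p * (-s - t) = c * (-t - A) ^ p * (-t - s) := by
        ring_nf
      rw [e]
      exact this)
  have e1 : (∫ t in (-s)..(-b), - f (-t)) = ∫ t in s..b, f t := by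
    rw [intervalIntegral.integral_neg, intervalIntegral.integral_comp_neg]
    simp only [neg_neg]
    rw [integral_symm]
    simp
  rw [e1] at h1
  have e2 : c * (-A - -b) ^ p / (p + 2) * (-s - -b) ^ 2
      = c * (b - A) ^ p / (p + 2) * (s - b) ^ 2 := by
    have : -A - -b = b - A := by ring
    rw [this]
    ring
  rw [e2] at h1
  exact h1

end Pool.Agent.Lib.MP_76a7f5_an
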