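import Pool.Agent.Lib.MP_76a7f5_an.Norm

/-!
Piecewise lower bounds for products of affine factors and a positive polynomial.
-/

namespace Pool.Agent.Lib.MP_76a7f5_an

open Polynomial

def affE (f : ℚ × ℚ) (t : ℚ) : ℚ := f.1 + f.2 * t

noncomputable def affR (f : ℚ × ℚ) (t : ℝ) : ℝ := (f.1 : ℝ) + (f.2 : ℝ) * t

def cellOK (fs : List (ℚ × ℚ)) (om : List ℚ) (c A B : ℚ) : Bool :=
  fs.all (fun f => decide (0 ≤ affE f A) && decide (0 ≤ affE f B)) &&
    decide (c ≤ (fs.map (fun f => min (affE f A) (affE f B))).prod * horner om A)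

def gridOK (fs : List (ℚ × ℚ)) (om : List ℚ) (c : ℚ) : List ℚ → Bool
  | (A :: B :: g) => decide (0 ≤ A) && decide (A ≤ B) && cellOK fs om c A B &&
      gridOK fs om c (B :: g)
  | _ => true

theorem eval_mono_toPoly {s t : ℝ} (hs : 0 ≤ s) (hst : s ≤ t) : ∀ om : List ℚ,
    (∀ x ∈ om, (0 : ℚ) ≤ x) → 0 ≤ (toPoly om).eval s ∧ (toPoly om).eval s ≤ (toPoly om).eval t
  | [], _ => by simp [toPoly]
  | (a :: L), h => by
      have h1 : (0 : ℝ) ≤ (a : ℝ) := by exact_mod_cast h a (by simp)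
      obtain ⟨h2, h3⟩ := eval_mono_toPoly hs hst L (fun x hx => h x (by simp [hx]))
      simp only [toPoly, eval_add, eval_mul, eval_C, eval_X]
      constructor
      · positivity
      · have := mul_le_mul hst h3 h2 (hs.trans hst)
        linarith

theorem aff_min (f : ℚ × ℚ) (A B : ℚ) (t : ℝ) (h1 : (A : ℝ) ≤ t) (h2 : t ≤ (B : ℝ)) :
    ((min (affE f A) (affE f B) : ℚ) : ℝ) ≤ affR f t := by
  unfold affE affR
  push_cast
  rcases le_total (0 : ℚ) f.2 with h | h
  · have h' : (0 : ℝ) ≤ (f.2 : ℝ) := by exact_mod_cast h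
    refine (min_le_left _ _).trans ?_
    nlinarith
  · have h' : (f.2 : ℝ) ≤ 0 := by exact_mod_cast h
    refine (min_le_right _ _).trans ?_
    nlinarith

theorem prod_min (A B : ℚ) (t : ℝ) (h1 : (A : ℝ) ≤ t) (h2 : t ≤ (B : ℝ)) : ∀ fs : List (ℚ × ℚ),
    (∀ f ∈ fs, (0 : ℚ) ≤ affE f A ∧ 0 ≤ affE f B) →
    0 ≤ (((fs.map (fun f => min (affE f A) (affE f B))).prod : ℚ) : ℝ) ∧
    (((fs.map (fun f => min (affE f A) (affE f B))).prod : ℚ) : ℝ) ≤
      (fs.map (fun f => affR f t)).prod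
  | [], _ => by simp
  | (f :: fs), h => by
      obtain ⟨h3, h4⟩ := prod_min A B t h1 h2 fs (fun x hx => h x (by simp [hx]))
      have h5 := h f (by simp)
      have h6 := aff_min f A B t h1 h2
      have h7 : (0 : ℝ) ≤ ((min (affE f A) (affE f B) : ℚ) : ℝ) := by
        exact_mod_cast le_min h5.1 h5.2
      simp only [List.map_cons, List.prod_cons]
      rw [Rat.cast_mul]
      exact ⟨mul_nonneg h7 h3, mul_le_mul h6 h4 h3 (h7.trans h6)⟩

theorem cell_sound (fs : List (ℚ × ℚ)) (om : List ℚ) (c A B : ℚ) (hA : 0 ≤ A)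
    (hom : ∀ x ∈ om, (0 : ℚ) ≤ x) (h : cellOK fs om c A B = true) (t : ℝ)
    (h1 : (A : ℝ) ≤ t) (h2 : t ≤ (B : ℝ)) :
    (c : ℝ) ≤ (fs.map (fun f => affR f t)).prod * (toPoly om).eval t := by
  unfold cellOK at h
  simp only [Bool.and_eq_true, List.all_eq_true, decide_eq_true_eq] at h
  obtain ⟨h3, h4⟩ := h
  obtain ⟨h5, h6⟩ := prod_min A B t h1 h2 fs h3
  have hA' : (0 : ℝ) ≤ (A : ℝ) := by exact_mod_cast hA
  obtain ⟨h7, h8⟩ := eval_mono_toPoly hA' h1 om hom
  rw [eval_toPoly] at h7 h8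
  have h9 : (c : ℝ) ≤ (((fs.map (fun f => min (affE f A) (affE f B))).prod : ℚ) : ℝ) *
      ((horner om A : ℚ) : ℝ) := by exact_mod_cast h4
  exact h9.trans (mul_le_mul h6 h8 h7 (h5.trans h6))

theorem grid_sound (fs : List (ℚ × ℚ)) (om : List ℚ) (c : ℚ) (hom : ∀ x ∈ om, (0 : ℚ) ≤ x) :
    ∀ (g : List ℚ) (A B : ℚ), gridOK fs om c (A :: B :: g) = true → ∀ t : ℝ, (A : ℝ) ≤ t →
      t ≤ (((A :: B :: g).getLast (by simp) : ℚ) : ℝ) →
      (c : ℝ) ≤ (fs.map (fun f => affR f t)).prod * (toPoly om).eval t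
  | [], A, B, h, t, h1, h2 => by
      simp only [gridOK, Bool.and_eq_true, decide_eq_true_eq, and_true] at h
      exact cell_sound fs om c A B h.1.1 hom h.2 t h1 (by simpa using h2)
  | (D :: g), A, B, h, t, h1, h2 => by
      unfold gridOK at h
      rw [Bool.and_eq_true, Bool.and_eq_true, Bool.and_eq_true, decide_eq_true_eq,
        decide_eq_true_eq] at h
      rcases le_total t (B : ℝ) with h3 | h3
      · exact cell_sound fs om c A B h.1.1.1 hom h.1.2 t h1 h3
      · refine grid_sound fs om c hom g B D h.2 t h3 ?_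
        simpa using h2

theorem filter_prod (v : ℚ × ℚ) (t : ℝ) : ∀ L : List (ℚ × ℚ),
    (L.map (fun f => affR f t)).prod =
      (affR v t) ^ (L.count v) * ((L.filter (fun f => f != v)).map (fun f => affR f t)).prod
  | [] => by simp
  | (f :: L) => by
      have ih := filter_prod v t L
      by_cases h : f = v
      · subst h
        simp only [List.map_cons, List.prod_cons, List.count_cons_self]
        rw [ih, pow_succ]
        simp only [List.filter_cons, bne_self_eq_false, Bool.false_eq_true, if_false]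
        ring
      · simp only [List.map_cons, List.prod_cons]
        rw [ih, List.count_cons_of_ne h]
        have : (f != v) = true := by simpa using h
        simp only [List.filter_cons, this, if_true, List.map_cons, List.prod_cons]
        ring

theorem side_sound (L : List (ℚ × ℚ)) (v : ℚ × ℚ) (om : List ℚ) (c A B : ℚ) (g : List ℚ)
    (hom : ∀ x ∈ om, (0 : ℚ) ≤ x)
    (h : gridOK (L.filter (fun f => f != v)) om c (A :: B :: g) = true) (t : ℝ)
    (h1 : (A : ℝ) ≤ t) (h2 : t ≤ (((A :: B :: g).getLast (by simp) : ℚ) : ℝ))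
    (hv : 0 ≤ affR v t) :
    (c : ℝ) * (affR v t) ^ (L.count v) ≤
      (L.map (fun f => affR f t)).prod * (toPoly om).eval t := by
  have key := grid_sound _ om c hom g A B h t h1 h2
  rw [filter_prod v t L]
  have := mul_le_mul_of_nonneg_left key (pow_nonneg hv (L.count v))
  calc (c : ℝ) * (affR v t) ^ (L.count v) = (affR v t) ^ (L.count v) * c := by ring
    _ ≤ _ := this
    _ = _ := by ring

end Pool.Agent.Lib.MP_76a7f5_an
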