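import Mathlib

/-!
Lower bound of the product with clamped nodes by a product of explicit affine factors.
-/

namespace Pool.Agent.Lib.MP_76a7f5_an

open Finset

/-- the affine factors (constant term, slope) which bound the product without the factor of the
node `S k` from below between `a k` and `a (k + 1)` -/
def facs (a lo hi : ℕ → ℚ) (k : ℕ) : List (ℚ × ℚ) :=
  (-(a k), 1) :: (List.range 5).flatMap (fun l =>
    if l < k then [(-(a l), 1), (-(hi l), 1)] else if l = k then [] else [(a l, -1), (lo l, -1)])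

/-- real value of an affine factor -/
private noncomputable def av (t : ℝ) (f : ℚ × ℚ) : ℝ := (f.1 : ℝ) + (f.2 : ℝ) * t

private noncomputable def Q (a lo hi : ℕ → ℚ) (k : ℕ) (t : ℝ) (l : ℕ) : ℝ :=
  if l < k then (t - a l) * (t - hi l) else if l = k then 1 else (a l - t) * (lo l - t)

private theorem prod_flat (a lo hi : ℕ → ℚ) (k : ℕ) (t : ℝ) (L : List ℕ) :
    ((L.flatMap (fun l => if l < k then [(-(a l), (1 : ℚ)), (-(hi l), 1)]
      else if l = k then [] else [(a l, -1), (lo l, -1)])).map (av t)).prod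
      = (L.map (Q a lo hi k t)).prod := by
  induction L with
  | nil => simp
  | cons l L ih =>
    rw [List.flatMap_cons, List.map_append, List.prod_append, ih, List.map_cons, List.prod_cons]
    congr 1
    unfold Q av
    split_ifs
    · simp
      ring
    · simp
    · simp
      ring

private theorem prod_facs (a lo hi : ℕ → ℚ) {k : ℕ} (hk : k < 5) (t : ℝ) :
    ((facs a lo hi k).map (av t)).prod
      = (t - a k) * ∏ l ∈ (range 5).erase k, Q a lo hi k t l := by
  have h1 : ∏ l ∈ range 5, Q a lo hi k t l = ∏ l ∈ (range 5).erase k, Q a lo hi k t l := by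
    rw [← Finset.mul_prod_erase (range 5) _ (Finset.mem_range.2 hk)]
    simp [Q]
  have h2 : ((List.range 5).map (Q a lo hi k t)).prod = ∏ l ∈ range 5, Q a lo hi k t l := by
    simp [List.range_succ, Finset.prod_range_succ]
    ring
  unfold facs
  rw [List.map_cons, List.prod_cons, prod_flat, h2, h1]
  unfold av
  simp
  left
  ring

private theorem mono {a : ℕ → ℚ} (ha : ∀ l < 5, a l ≤ a (l + 1)) {l m : ℕ} (hlm : l ≤ m)
    (hm : m ≤ 5) : (a l : ℝ) ≤ a m := by
  induction m, hlm using Nat.le_induction with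
  | base => exact le_refl _
  | succ m hlm ih => exact (ih (by omega)).trans (by exact_mod_cast ha m (by omega))

theorem facs_le (a lo hi : ℕ → ℚ) (S : ℕ → ℝ) (k : ℕ) (hk : k < 5) (t : ℝ)
    (ha : ∀ l < 5, a l ≤ a (l + 1)) (hlo : ∀ l < 5, a l ≤ lo l) (hhi : ∀ l < 5, hi l ≤ a (l + 1))
    (hS : ∀ l < 5, (lo l : ℝ) ≤ S l ∧ S l ≤ hi l) (h1 : (a k : ℝ) ≤ t)
    (h2 : t ≤ (a (k + 1) : ℝ)) :
    ((facs a lo hi k).map (fun f => (f.1 : ℝ) + (f.2 : ℝ) * t)).prod
      ≤ (t - a k) * ∏ l ∈ (range 5).erase k, (t - a l) * (t - S l) := by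
  have h := prod_facs a lo hi hk t
  unfold av at h
  rw [h]
  apply mul_le_mul_of_nonneg_left _ (by linarith)
  have key : ∀ l ∈ (range 5).erase k, 0 ≤ Q a lo hi k t l ∧
      Q a lo hi k t l ≤ (t - a l) * (t - S l) := by
    intro l hl
    have hlk : l ≠ k := (Finset.mem_erase.1 hl).1
    have hl5 : l < 5 := Finset.mem_range.1 (Finset.mem_erase.1 hl).2
    obtain ⟨s1, s2⟩ := hS l hl5
    have e1 : ((a l : ℚ) : ℝ) ≤ lo l := by exact_mod_cast hlo l hl5
    have e2 : ((hi l : ℚ) : ℝ) ≤ a (l + 1) := by exact_mod_cast hhi l hl5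
    unfold Q
    rcases lt_or_gt_of_ne hlk with h | h
    · rw [if_pos h]
      have m1 : ((a (l + 1) : ℚ) : ℝ) ≤ a k := mono ha (by omega) (by omega)
      have m2 : ((a l : ℚ) : ℝ) ≤ a k := mono ha (by omega) (by omega)
      have p1 : 0 ≤ t - a l := by linarith
      have p2 : 0 ≤ t - hi l := by linarith
      exact ⟨mul_nonneg p1 p2, mul_le_mul_of_nonneg_left (by linarith) p1⟩
    · rw [if_neg (by omega), if_neg hlk]
      have m1 : ((a (k + 1) : ℚ) : ℝ) ≤ a l := mono ha (by omega) (by omega)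
      have p1 : 0 ≤ (a l : ℝ) - t := by linarith
      have p2 : 0 ≤ (lo l : ℝ) - t := by linarith
      refine ⟨mul_nonneg p1 p2, ?_⟩
      have : (t - a l) * (t - S l) = (a l - t) * (S l - t) := by ring
      rw [this]
      exact mul_le_mul_of_nonneg_left (by linarith) p1
  exact Finset.prod_le_prod (fun l hl => (key l hl).1) (fun l hl => (key l hl).2)

theorem PiS_split (a S : ℕ → ℝ) {k : ℕ} (hk : k < 5) (t : ℝ) :
    ∏ l ∈ range 5, (t - a l) * (t - S l)
      = (t - S k) * ((t - a k) * ∏ l ∈ (range 5).erase k, (t - a l) * (t - S l)) := by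
  rw [← Finset.mul_prod_erase (range 5) _ (Finset.mem_range.2 hk)]
  ring

end Pool.Agent.Lib.MP_76a7f5_an
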