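import Mathlib

/-!
# The sign lemma with clamped nodes
-/

namespace Pool.Agent.Lib.MP_76a7f5_an

/-- the product with double nodes `a k` and `S k` -/
noncomputable def PiS (a S : ℕ → ℝ) (t : ℝ) : ℝ :=
  ∏ k ∈ Finset.range 5, (t - a k) * (t - S k)

/-- the particle with index `c k`, clamped to the interval from `a k` to `a (k + 1)` -/
noncomputable def clampS (a : ℕ → ℝ) (c : ℕ → ℕ) (y : ℕ → ℝ) (k : ℕ) : ℝ :=
  max (a k) (min (y (c k)) (a (k + 1)))

theorem PiS_continuous (a S : ℕ → ℝ) : Continuous (PiS a S) := by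
  unfold PiS
  fun_prop

theorem a_mono {a : ℕ → ℝ} (ha : ∀ k < 5, a k < a (k + 1)) {l m : ℕ} (hlm : l ≤ m) (hm : m ≤ 5) :
    a l ≤ a m := by
  induction m, hlm using Nat.le_induction with
  | base => exact le_refl _
  | succ m hlm ih => exact (ih (by omega)).trans (ha m (by omega)).le

theorem clamp_ge (a : ℕ → ℝ) (c : ℕ → ℕ) (y : ℕ → ℝ) (k : ℕ) : a k ≤ clampS a c y k :=
  le_max_left _ _

theorem clamp_le {a : ℕ → ℝ} (ha : ∀ k < 5, a k < a (k + 1)) (c : ℕ → ℕ) (y : ℕ → ℝ) {k : ℕ}
    (hk : k < 5) : clampS a c y k ≤ a (k + 1) :=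
  max_le (ha k hk).le (min_le_right _ _)

theorem sign_left {a : ℕ → ℝ} {c : ℕ → ℕ} {xs y : ℕ → ℝ}
    (hleft : ∀ i < 20, ∀ k < 5, i < c k → xs i ≤ a k)
    (hy : ∀ i j, i ≤ j → j < 20 → y i ≤ y j)
    {i : ℕ} (hi : i < 20) {t : ℝ} (h1 : y i ≤ t) (h2 : t < xs i) :
    0 ≤ PiS a (clampS a c y) t := by
  unfold PiS
  apply Finset.prod_nonneg
  intro k hk
  have hk5 : k < 5 := Finset.mem_range.1 hk
  by_contra hneg
  rw [not_le] at hneg
  have hS := clamp_ge a c y k
  have h3 : a k < t ∧ t < clampS a c y k := by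
    by_contra hcon
    rw [not_and_or, not_lt, not_lt] at hcon
    rcases hcon with h | h
    · exact absurd hneg (not_lt.2 (mul_nonneg_of_nonpos_of_nonpos (by linarith) (by linarith)))
    · exact absurd hneg (not_lt.2 (mul_nonneg (by linarith) (by linarith)))
  have h4 : t < y (c k) := by
    have h5 := h3.2
    unfold clampS at h5
    rcases lt_max_iff.1 h5 with h6 | h6
    · exact absurd h6 (not_lt.2 h3.1.le)
    · exact (lt_min_iff.1 h6).1
  have h7 : i < c k := by
    by_contra h8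
    rw [not_lt] at h8
    have := hy (c k) i h8 hi
    linarith
  have := hleft i hi k hk5 h7
  linarith [h3.1]

theorem sign_right {a : ℕ → ℝ} {c : ℕ → ℕ} {xs y : ℕ → ℝ}
    (ha : ∀ k < 5, a k < a (k + 1)) (ha5 : a 5 = 1)
    (hc : ∀ k < 5, c k < 20)
    (hright : ∀ i < 20, ∀ k < 5, c k < i → a (k + 1) ≤ xs i)
    (hx0 : ∀ i < 20, a 0 ≤ xs i)
    (hy : ∀ i j, i ≤ j → j < 20 → y i ≤ y j)
    (hy1 : ∀ i < 20, y i ≤ 1)
    {i : ℕ} (hi : i < 20) {t : ℝ} (h1 : xs i ≤ t) (h2 : t < y i) :
    PiS a (clampS a c y) t ≤ 0 := by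
  obtain ⟨k, hk, hk1, hk2⟩ : ∃ k < 5, a k ≤ t ∧ t < a (k + 1) := by
    by_contra hcon0
    have hcon : ∀ k < 5, a k ≤ t → a (k + 1) ≤ t := by
      intro k hk h
      by_contra h'
      exact hcon0 ⟨k, hk, h, not_le.1 h'⟩
    have h3 : ∀ k ≤ 5, a k ≤ t := by
      intro k
      induction k with
      | zero => intro _; exact (hx0 i hi).trans h1
      | succ k ih => intro hk; exact hcon k (by omega) (ih (by omega))
    have h4 := h3 5 le_rfl
    have h5 := hy1 i hi
    rw [ha5] at h4
    linarith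
  have h3 : t ≤ clampS a c y k := by
    by_contra h4
    rw [not_le] at h4
    have h5 : y (c k) < t := by
      unfold clampS at h4
      have h6 := (max_lt_iff.1 h4).2
      rcases min_lt_iff.1 h6 with h7 | h7
      · exact h7
      · linarith
    have h7 : c k < i := by
      by_contra h8
      rw [not_lt] at h8
      have := hy i (c k) h8 (hc k hk)
      linarith
    have := hright i hi k hk h7
    linarith
  unfold PiS
  rw [← Finset.mul_prod_erase _ _ (Finset.mem_range.2 hk)]
  apply mul_nonpos_of_nonpos_of_nonneg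
  · exact mul_nonpos_of_nonneg_of_nonpos (by linarith) (by linarith)
  · apply Finset.prod_nonneg
    intro l hl
    rw [Finset.mem_erase, Finset.mem_range] at hl
    rcases lt_or_gt_of_ne hl.1 with h | h
    · have h5 := clamp_le ha c y hl.2
      have h6 := a_mono ha (show l + 1 ≤ k from h) (by omega)
      have h7 := ha l hl.2
      exact mul_nonneg (by linarith) (by linarith)
    · have h5 := clamp_ge a c y l
      have h6 := a_mono ha (show k + 1 ≤ l from h) (by omega)
      exact mul_nonneg_of_nonpos_of_nonpos (by linarith) (by linarith)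

/-- a continuous function which is nonnegative inside an interval has nonnegative integral -/
theorem int_ge {f : ℝ → ℝ} (hf : Continuous f) {u v : ℝ} (huv : u ≤ v)
    (h : ∀ t, u < t → t < v → 0 ≤ f t) : 0 ≤ ∫ t in u..v, f t := by
  have h1 : (∫ t in u..v, (0 : ℝ)) ≤ ∫ t in u..v, f t := by
    apply intervalIntegral.integral_mono_on_of_le_Ioo huv
    · exact intervalIntegrable_const
    · exact hf.intervalIntegrable _ _
    · intro t ht
      exact h t ht.1 ht.2
  simpa using h1

theorem int_le {f : ℝ → ℝ} (hf : Continuous f) {u v : ℝ} (huv : u ≤ v)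
    (h : ∀ t, u < t → t < v → f t ≤ 0) : 0 ≤ ∫ t in v..u, f t := by
  have h1 : 0 ≤ ∫ t in u..v, -f t := by
    apply int_ge (f := fun t => -f t) hf.neg huv
    intro t h1 h2
    exact neg_nonneg.2 (h t h1 h2)
  rw [intervalIntegral.integral_neg] at h1
  rw [intervalIntegral.integral_symm]
  exact h1

theorem int_nonneg {a : ℕ → ℝ} {c : ℕ → ℕ} {xs y : ℕ → ℝ}
    (ha : ∀ k < 5, a k < a (k + 1)) (ha5 : a 5 = 1) (ha0 : 0 ≤ a 0)
    (hc : ∀ k < 5, c k < 20)
    (hleft : ∀ i < 20, ∀ k < 5, i < c k → xs i ≤ a k)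
    (hright : ∀ i < 20, ∀ k < 5, c k < i → a (k + 1) ≤ xs i)
    (hx0 : ∀ i < 20, a 0 ≤ xs i)
    (hy : ∀ i j, i ≤ j → j < 20 → y i ≤ y j)
    (hy0 : ∀ i < 20, 0 ≤ y i) (hy1 : ∀ i < 20, y i ≤ 1)
    (om : ℝ → ℝ) (hom : Continuous om) (hom0 : ∀ t, 0 ≤ t → 0 ≤ om t)
    {i : ℕ} (hi : i < 20) :
    0 ≤ ∫ t in (y i)..(xs i), PiS a (clampS a c y) t * om t := by
  have hcont : Continuous (fun t => PiS a (clampS a c y) t * om t) :=
    (PiS_continuous _ _).mul hom
  rcases le_total (y i) (xs i) with h | h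
  · apply int_ge hcont h
    intro t h1 h2
    exact mul_nonneg (sign_left hleft hy hi h1.le h2) (hom0 t ((hy0 i hi).trans h1.le))
  · apply int_le hcont h
    intro t h1 h2
    exact mul_nonpos_of_nonpos_of_nonneg (sign_right ha ha5 hc hright hx0 hy hy1 hi h1.le h2)
      (hom0 t (ha0.trans ((hx0 i hi).trans h1.le)))

theorem int_single {a b : ℕ → ℝ} {c : ℕ → ℕ} {xs y : ℕ → ℝ}
    (ha : ∀ k < 5, a k < a (k + 1)) (ha5 : a 5 = 1) (ha0 : 0 ≤ a 0)
    (hc : ∀ k < 5, c k < 20)
    (hleft : ∀ i < 20, ∀ k < 5, i < c k → xs i ≤ a k)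
    (hright : ∀ i < 20, ∀ k < 5, c k < i → a (k + 1) ≤ xs i)
    (hx0 : ∀ i < 20, a 0 ≤ xs i)
    (hb : ∀ k < 5, a k < b k ∧ b k < a (k + 1)) (hxb : ∀ k < 5, xs (c k) = b k)
    (hy : ∀ i j, i ≤ j → j < 20 → y i ≤ y j)
    (hy0 : ∀ i < 20, 0 ≤ y i) (hy1 : ∀ i < 20, y i ≤ 1)
    (om : ℝ → ℝ) (hom : Continuous om) (hom0 : ∀ t, 0 ≤ t → 0 ≤ om t)
    {k : ℕ} (hk : k < 5) :
    ∫ t in (clampS a c y k)..(b k), PiS a (clampS a c y) t * om t ≤
      ∫ t in (y (c k))..(b k), PiS a (clampS a c y) t * om t := by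
  have hcont : Continuous (fun t => PiS a (clampS a c y) t * om t) :=
    (PiS_continuous _ _).mul hom
  have hck := hc k hk
  have h0 := hy0 (c k) hck
  have key : 0 ≤ ∫ t in (y (c k))..(clampS a c y k), PiS a (clampS a c y) t * om t := by
    rcases lt_or_ge (y (c k)) (a k) with h | h
    · have hS : clampS a c y k = a k := by
        unfold clampS
        exact max_eq_left ((min_le_left _ _).trans h.le)
      apply int_ge hcont (by rw [hS]; exact h.le)
      intro t h1 h2
      refine mul_nonneg (sign_left hleft hy hck h1.le ?_) (hom0 t (h0.trans h1.le))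
      rw [hS] at h2
      rw [hxb k hk]
      exact h2.trans (hb k hk).1
    · rcases le_or_gt (y (c k)) (a (k + 1)) with h' | h'
      · have hS : clampS a c y k = y (c k) := by
          unfold clampS
          rw [min_eq_left h', max_eq_right h]
        rw [hS, intervalIntegral.integral_same]
      · have hS : clampS a c y k = a (k + 1) := by
          unfold clampS
          rw [min_eq_right h'.le, max_eq_right (ha k hk).le]
        apply int_le hcont (by rw [hS]; exact h'.le)
        intro t h1 h2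
        rw [hS] at h1
        have h3 : a 0 ≤ a (k + 1) := a_mono ha (Nat.zero_le _) (by omega)
        refine mul_nonpos_of_nonpos_of_nonneg
          (sign_right ha ha5 hc hright hx0 hy hy1 hck ?_ h2) (hom0 t (by linarith))
        rw [hxb k hk]
        linarith [(hb k hk).2]
  have h1 : IntervalIntegrable (fun t => PiS a (clampS a c y) t * om t) MeasureTheory.volume
      (y (c k)) (clampS a c y k) := hcont.intervalIntegrable _ _
  have h2 : IntervalIntegrable (fun t => PiS a (clampS a c y) t * om t) MeasureTheory.volume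
      (clampS a c y k) (b k) := hcont.intervalIntegrable _ _
  have h3 := intervalIntegral.integral_add_adjacent_intervals h1 h2
  rw [← h3]
  linarith

end Pool.Agent.Lib.MP_76a7f5_an
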