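import Pool.Agent.Lib.MP_76a7f5_an.Data
import Pool.Agent.Lib.MP_76a7f5_an.Grid
import Pool.Agent.Lib.MP_76a7f5_an.Prod
import Pool.Agent.Lib.MP_76a7f5_an.Sign
import Pool.Agent.Lib.MP_76a7f5_an.GainInt

/-!
Lower bound for the gain of one simple node.
-/

namespace Pool.Agent.Lib.MP_76a7f5_an

open Finset Polynomial

/-- shifted multiple nodes -/
def aq1 (k : ℕ) : ℚ := aq (k + 1)

/-- check for one side of one simple node: the interval is from `A` to `B`, `g` is the list of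
interior grid points -/
def okSide (fs : List (ℚ × ℚ)) (v : ℚ × ℚ) (c A B : ℚ) (g : List ℚ) : Bool :=
  match g with
  | [] => false
  | (p :: g) => gridOK (fs.filter (fun f => f != v)) omL c (A :: p :: (g ++ [B]))

noncomputable section

theorem omL_nonneg : ∀ x ∈ omL, (0 : ℚ) ≤ x := by decide +kernel

theorem okSide_sound (fs : List (ℚ × ℚ)) (v : ℚ × ℚ) (c A B : ℚ) (g : List ℚ)
    (h : okSide fs v c A B g = true) (t : ℝ) (h1 : (A : ℝ) ≤ t) (h2 : t ≤ (B : ℝ))
    (hv : 0 ≤ affR v t) :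
    (c : ℝ) * (affR v t) ^ (fs.count v) ≤ (fs.map (fun f => affR f t)).prod * (toPoly omL).eval t := by
  cases g with
  | nil => simp [okSide] at h
  | cons p g =>
    simp only [okSide] at h
    refine side_sound fs v omL c A p (g ++ [B]) omL_nonneg h t h1 ?_ hv
    have : (A :: p :: (g ++ [B])).getLast (by simp) = B := by simp
    rw [this]
    exact h2

/-- the real nodes -/
def ar (k : ℕ) : ℝ := (aq k : ℝ)

def br (k : ℕ) : ℝ := (bq k : ℝ)

/-- the positive weight -/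
def omr (t : ℝ) : ℝ := (toPoly omL).eval t

theorem omr_cont : Continuous omr := (toPoly omL).continuous

theorem PiS_omr_cont (S : ℕ → ℝ) : Continuous (fun t => PiS ar S t * omr t) :=
  (PiS_continuous _ _).mul omr_cont

theorem aq_mono : ∀ l < 5, aq l < aq (l + 1) := by decide +kernel

theorem ab_lt : ∀ l < 5, aq l < bq l ∧ bq l < aq (l + 1) := by decide +kernel

theorem eval_omL_nonneg {t : ℝ} (ht : 0 ≤ t) : 0 ≤ omr t := by
  unfold omr
  have : ∀ L : List ℚ, (∀ x ∈ L, (0 : ℚ) ≤ x) → 0 ≤ (toPoly L).eval t := by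
    intro L
    induction L with
    | nil => intro _; simp [toPoly]
    | cons a L ih =>
      intro h
      simp only [toPoly, eval_add, eval_mul, eval_C, eval_X]
      have h1 : (0 : ℝ) ≤ (a : ℝ) := by exact_mod_cast h a (by simp)
      have h2 := ih (fun x hx => h x (by simp [hx]))
      positivity
  exact this omL omL_nonneg

/-- the product of the other factors is bounded below -/
theorem other_ge (lo hi : ℕ → ℚ) (S : ℕ → ℝ) (k : ℕ) (hk : k < 5) (t : ℝ)
    (hlo : ∀ l < 5, aq l ≤ lo l) (hhi : ∀ l < 5, hi l ≤ aq (l + 1))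
    (hS : ∀ l < 5, (lo l : ℝ) ≤ S l ∧ S l ≤ hi l) (h0 : 0 ≤ t) (h1 : (aq k : ℝ) ≤ t)
    (h2 : t ≤ (aq (k + 1) : ℝ)) (v : ℚ × ℚ) (c A B : ℚ) (g : List ℚ)
    (h : okSide (facs aq lo hi k) v c A B g = true) (h3 : (A : ℝ) ≤ t) (h4 : t ≤ (B : ℝ))
    (hv : 0 ≤ affR v t) :
    (c : ℝ) * (affR v t) ^ ((facs aq lo hi k).count v) ≤
      ((t - ar k) * ∏ l ∈ (range 5).erase k, (t - ar l) * (t - S l)) * omr t := by
  have e1 := okSide_sound _ v c A B g h t h3 h4 hv
  have e2 := facs_le aq lo hi S k hk t (fun l hl => (aq_mono l hl).le) hlo hhi hS h1 h2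
  refine e1.trans ?_
  exact mul_le_mul_of_nonneg_right e2 (eval_omL_nonneg h0)

/-- gain, the moved node is on the left -/
theorem gain_left (lo hi : ℕ → ℚ) (S : ℕ → ℝ) (k : ℕ) (hk : k < 5)
    (hlo : ∀ l < 5, aq l ≤ lo l) (hhi : ∀ l < 5, hi l ≤ aq (l + 1)) (ha0 : 0 ≤ aq k)
    (hS : ∀ l < 5, (lo l : ℝ) ≤ S l ∧ S l ≤ hi l) (c : ℚ) (hc : 0 ≤ c) (g : List ℚ)
    (h : okSide (facs aq lo hi k) (-(aq k), 1) c (lo k) (bq k) g = true) (p : ℕ) (hp : p ≤ 2)
    (hcount : (facs aq lo hi k).count (-(aq k), 1) = p) (hs : S k ≤ br k) :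
    (c : ℝ) * (br k - ar k) ^ p / (p + 2) * (S k - br k) ^ 2 ≤
      ∫ t in (S k)..(br k), PiS ar S t * omr t := by
  have hloS : (aq k : ℝ) ≤ S k := by
    have := hlo k hk
    have h' : (aq k : ℝ) ≤ (lo k : ℝ) := by exact_mod_cast this
    exact h'.trans (hS k hk).1
  have ha0' : (0 : ℝ) ≤ (aq k : ℝ) := by exact_mod_cast ha0
  have hb : (bq k : ℝ) ≤ (aq (k + 1) : ℝ) := by exact_mod_cast (ab_lt k hk).2.le
  refine gainL p hp _ (PiS_omr_cont S) (br k) (S k) (ar k) c hs hloS (by exact_mod_cast hc) ?_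
  intro t ht1 ht2
  have hat : (aq k : ℝ) ≤ t := hloS.trans ht1
  have haff : affR (-(aq k), 1) t = t - ar k := by
    unfold affR ar; push_cast; ring
  have key := other_ge lo hi S k hk t hlo hhi hS (ha0'.trans hat) hat
    (by unfold br at ht2; exact ht2.trans hb) _ c (lo k) (bq k) g h ((hS k hk).1.trans ht1) ht2
    (by rw [haff]; unfold ar; linarith)
  rw [haff, hcount] at key
  have e : PiS ar S t * omr t = (((t - ar k) * ∏ l ∈ (range 5).erase k, (t - ar l) * (t - S l)) *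
      omr t) * (t - S k) := by
    unfold PiS
    rw [PiS_split ar S hk t]
    ring
  rw [e]
  exact mul_le_mul_of_nonneg_right key (by linarith)

/-- gain, the moved node is on the right -/
theorem gain_right (lo hi : ℕ → ℚ) (S : ℕ → ℝ) (k : ℕ) (hk : k < 5)
    (hlo : ∀ l < 5, aq l ≤ lo l) (hhi : ∀ l < 5, hi l ≤ aq (l + 1)) (ha0 : 0 ≤ aq k)
    (hS : ∀ l < 5, (lo l : ℝ) ≤ S l ∧ S l ≤ hi l) (c : ℚ) (hc : 0 ≤ c) (g : List ℚ)
    (h : okSide (facs aq lo hi k) (aq (k + 1), -1) c (bq k) (hi k) g = true) (p : ℕ) (hp : p ≤ 2)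
    (hcount : (facs aq lo hi k).count (aq (k + 1), -1) = p) (hs : br k ≤ S k) :
    (c : ℝ) * (ar (k + 1) - br k) ^ p / (p + 2) * (S k - br k) ^ 2 ≤
      ∫ t in (S k)..(br k), PiS ar S t * omr t := by
  have hhiS : S k ≤ (aq (k + 1) : ℝ) := by
    have := hhi k hk
    have h' : (hi k : ℝ) ≤ (aq (k + 1) : ℝ) := by exact_mod_cast this
    exact (hS k hk).2.trans h'
  have ha0' : (0 : ℝ) ≤ (aq k : ℝ) := by exact_mod_cast ha0
  have hb : (aq k : ℝ) ≤ (bq k : ℝ) := by exact_mod_cast (ab_lt k hk).1.le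
  refine gainR p hp _ (PiS_omr_cont S) (br k) (S k) (ar (k + 1)) c hs hhiS (by exact_mod_cast hc) ?_
  intro t ht1 ht2
  have hat : (aq k : ℝ) ≤ t := hb.trans ht1
  have haff : affR (aq (k + 1), -1) t = ar (k + 1) - t := by
    unfold affR ar; push_cast; ring
  have key := other_ge lo hi S k hk t hlo hhi hS (ha0'.trans hat) hat
    (ht2.trans hhiS) _ c (bq k) (hi k) g h ht1 (ht2.trans (hS k hk).2)
    (by rw [haff]; unfold ar; linarith)
  rw [haff, hcount] at key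
  have e : - (PiS ar S t * omr t) = (((t - ar k) * ∏ l ∈ (range 5).erase k, (t - ar l) *
      (t - S l)) * omr t) * (S k - t) := by
    unfold PiS
    rw [PiS_split ar S hk t]
    ring
  rw [e]
  exact mul_le_mul_of_nonneg_right key (by linarith)

/-- both sides together -/
theorem gain_both (lo hi : ℕ → ℚ) (S : ℕ → ℝ) (k : ℕ) (hk : k < 5)
    (hlo : ∀ l < 5, aq l ≤ lo l) (hhi : ∀ l < 5, hi l ≤ aq (l + 1)) (ha0 : 0 ≤ aq k)
    (hS : ∀ l < 5, (lo l : ℝ) ≤ S l ∧ S l ≤ hi l) (c c' : ℚ) (hc : 0 ≤ c) (hc' : 0 ≤ c')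
    (g g' : List ℚ)
    (h : okSide (facs aq lo hi k) (-(aq k), 1) c (lo k) (bq k) g = true)
    (h' : okSide (facs aq lo hi k) (aq (k + 1), -1) c' (bq k) (hi k) g' = true)
    (p p' : ℕ) (hp : p ≤ 2) (hp' : p' ≤ 2)
    (hcount : (facs aq lo hi k).count (-(aq k), 1) = p)
    (hcount' : (facs aq lo hi k).count (aq (k + 1), -1) = p')
    (γ : ℚ) (hγ : γ ≤ c * (bq k - aq k) ^ p / (p + 2))
    (hγ' : γ ≤ c' * (aq (k + 1) - bq k) ^ p' / (p' + 2)) :
    (γ : ℝ) * (S k - br k) ^ 2 ≤ ∫ t in (S k)..(br k), PiS ar S t * omr t := by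
  rcases le_total (S k) (br k) with hs | hs
  · refine le_trans ?_ (gain_left lo hi S k hk hlo hhi ha0 hS c hc g h p hp hcount hs)
    refine mul_le_mul_of_nonneg_right ?_ (sq_nonneg _)
    unfold br ar
    exact_mod_cast hγ
  · refine le_trans ?_ (gain_right lo hi S k hk hlo hhi ha0 hS c' hc' g' h' p' hp' hcount' hs)
    refine mul_le_mul_of_nonneg_right ?_ (sq_nonneg _)
    unfold br ar
    exact_mod_cast hγ'

end

end Pool.Agent.Lib.MP_76a7f5_an
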