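import Pool.Agent.Lib.MP_76a7f5_an.Data

/-!
Kernel checks of the rational constants.
-/

namespace Pool.Agent.Lib.MP_76a7f5_an

theorem n_E : 10841 / 10000000000000000000000000000 ≤ Eq0 := by decide +kernel

theorem n_rho : Nq rhoL ≤ 1 / 10000000000000000000000000000000000000000 := by decide +kernel

theorem n_K0 : vert [] [] (mulLin (bq 1) (mulLin (bq 2) (mulLin (bq 3) (mulLin (bq 4) baseL))))
    (1456 / 10000000000000000000000000000) = true := by decide +kernel

theorem n_K1 : vert [] [(loN 0, hiN 0)] (mulLin (bq 2) (mulLin (bq 3) (mulLin (bq 4) baseL)))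
    (1581 / 10000000000000000000000000000) = true := by decide +kernel

theorem n_K2 : vert [] [(loN 0, hiN 0), (loN 1, hiN 1)] (mulLin (bq 3) (mulLin (bq 4) baseL))
    (1781 / 10000000000000000000000000000) = true := by decide +kernel

theorem n_K3 : vert [] [(loN 0, hiN 0), (loN 1, hiN 1), (loN 2, hiN 2)] (mulLin (bq 4) baseL)
    (2174 / 10000000000000000000000000000) = true := by decide +kernel

theorem n_K4 : vert [] [(loN 0, hiN 0), (loN 1, hiN 1), (loN 2, hiN 2), (loN 3, hiN 3)] baseL
    (2675 / 10000000000000000000000000000) = true := by decide +kernel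

theorem n_far : vert mUL [(aq 0, aq 1), (aq 1, aq 2), (aq 2, aq 3), (aq 3, aq 4), (aq 4, aq 5)]
    baseL (6881 / 100000000000000000000000000000) = true := by decide +kernel

end Pool.Agent.Lib.MP_76a7f5_an
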