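import Pool.Agent.Lib.MP_76a7f5_an.Alg
import Pool.Agent.Lib.MP_76a7f5_an.Num
import Pool.Agent.Lib.MP_76a7f5_an.Checks

/-!
The lower bound for the truncated energy over all symmetric points.
-/

namespace Pool.Agent.Lib.MP_76a7f5_an

open Finset Polynomial

noncomputable section

/-- the reference nodes as real numbers -/
def xr (i : ℕ) : ℝ := ((xsL.getD i 0 : ℚ) : ℝ)

lemma powq_eq (x : ℚ) : ∀ n : ℕ, powq x n = x ^ n
  | 0 => by simp [powq]
  | (n + 1) => by rw [powq, powq_eq x n, pow_succ]

lemma sumq_append : ∀ L M : List ℚ, sumq (L ++ M) = sumq L + sumq M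
  | [], M => by simp [sumq]
  | (a :: L), M => by
      simp only [List.cons_append, sumq, sumq_append L M]
      ring

lemma sumq_range (g : ℕ → ℚ) : ∀ n : ℕ, sumq ((List.range n).map g) = ∑ j ∈ range n, g j
  | 0 => by simp [sumq]
  | (n + 1) => by
      rw [List.range_succ, List.map_append, sumq_append, sumq_range g n, Finset.sum_range_succ]
      simp [sumq]

lemma sumq_map (f : ℚ → ℚ) : ∀ L : List ℚ,
    sumq (L.map f) = ∑ i ∈ range L.length, f (L.getD i 0)
  | [] => by simp [sumq]
  | (a :: L) => by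
      simp only [List.map_cons, sumq, List.length_cons, sumq_map f L]
      rw [Finset.sum_range_succ']
      simp only [List.getD_cons_succ, List.getD_cons_zero]
      ring

lemma resq_eq (j : ℕ) : ((resq j : ℚ) : ℝ) = Mj xr j - Tj j := by
  unfold resq
  rw [sumq_map]
  have h : xsL.length = 20 := by decide
  rw [h]
  unfold Mj Tj xr
  push_cast
  simp only [powq_eq]
  push_cast
  ring

lemma Ey_xr : Ey xr = ((Eq0 : ℚ) : ℝ) := by
  unfold Eq0 Ey
  rw [sumq_range]
  push_cast
  refine Finset.sum_congr rfl fun j _ => ?_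
  rw [powq_eq, powq_eq]
  push_cast
  rw [resq_eq]
  unfold wj
  rfl

lemma natDegree_toPoly : ∀ L : List ℚ, (toPoly L).natDegree ≤ L.length - 1
  | [] => by simp [toPoly]
  | [a] => by simp [toPoly]
  | (a :: b :: L) => by
      have ih := natDegree_toPoly (b :: L)
      rw [toPoly]
      refine (natDegree_add_le _ _).trans ?_
      refine max_le ?_ ?_
      · rw [natDegree_C]; exact Nat.zero_le _
      · refine natDegree_mul_le.trans ?_
        rw [natDegree_X]
        simp only [List.length_cons] at ih ⊢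
        omega

lemma natDegree_linProd : ∀ ss : List ℝ, (linProd ss).natDegree ≤ ss.length
  | [] => by simp [linProd]
  | (s :: ss) => by
      have ih := natDegree_linProd ss
      rw [linProd]
      refine natDegree_mul_le.trans ?_
      rw [natDegree_X_sub_C, List.length_cons]
      omega

/-- the polynomial `-U'` -/
def mU : ℝ[X] := toPoly mUL

lemma mU_deg : mU.natDegree < 20 := by
  have h := natDegree_toPoly mUL
  have h2 : mUL.length = 20 := by simp [mUL]
  unfold mU
  omega

lemma mU_coeff (j : ℕ) (hj : j < 20) :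
    mU.coeff j = - (((j : ℝ) + 1) * wj j * (Mj xr j - Tj j)) := by
  unfold mU
  rw [coeff_toPoly]
  have h : mUL.getD j 0 = -(((j : ℚ) + 1) * (1 / powq 3 (2 * j + 3)) * resq j) := by
    unfold mUL
    rw [List.getD_eq_getElem?_getD, List.getElem?_map, List.getElem?_range hj]
    rfl
  rw [h, powq_eq]
  push_cast
  rw [resq_eq]
  unfold wj
  ring

/-- the five moved nodes as a list -/
def SL (S : ℕ → ℝ) : List ℝ := [S 0, S 1, S 2, S 3, S 4]

/-- the product polynomial -/
def QS (S : ℕ → ℝ) : ℝ[X] := linProd (SL S) * toPoly baseL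

lemma baseL_eq : toPoly baseL = (X - C (ar 4)) * ((X - C (ar 3)) * ((X - C (ar 2)) *
    ((X - C (ar 1)) * ((X - C (ar 0)) * toPoly omL)))) := by
  unfold baseL ar
  simp only [toPoly_mulLin]

lemma baseL_length : baseL.length = 15 := by
  unfold baseL
  simp only [length_mulLin]
  rfl

lemma QS_eval (S : ℕ → ℝ) (t : ℝ) : (QS S).eval t = PiS ar S t * omr t := by
  unfold QS PiS omr
  rw [baseL_eq]
  simp only [SL, linProd, eval_mul, eval_sub, eval_X, eval_C, eval_one, Finset.prod_range_succ,
    Finset.prod_range_zero]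
  ring

lemma QS_deg (S : ℕ → ℝ) : (QS S).natDegree ≤ 19 := by
  unfold QS
  refine natDegree_mul_le.trans ?_
  have h1 := natDegree_linProd (SL S)
  have h2 := natDegree_toPoly baseL
  rw [baseL_length] at h2
  have h3 : (SL S).length = 5 := rfl
  omega

lemma P_deg (S : ℕ → ℝ) : (mU - QS S).natDegree < 20 := by
  have h := natDegree_sub_le mU (QS S)
  have h1 := mU_deg
  have h2 := QS_deg S
  omega

/-- far bound -/
lemma far_bound (S : ℕ → ℝ) (hS : ∀ k < 5, ar k ≤ S k ∧ S k ≤ ar (k + 1)) :
    NN (mU - QS S) ≤ 6881 / 100000000000000000000000000000 := by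
  have h := vert_sound mUL (by simp [mUL]) (6881 / 100000000000000000000000000000)
    [(aq 0, aq 1), (aq 1, aq 2), (aq 2, aq 3), (aq 3, aq 4), (aq 4, aq 5)] baseL (SL S)
    (by
      refine ⟨hS 0 (by norm_num), hS 1 (by norm_num), hS 2 (by norm_num), hS 3 (by norm_num),
        hS 4 (by norm_num), trivial⟩)
    (by rw [baseL_length]; simp) n_far
  unfold mU QS
  refine h.trans (le_of_eq ?_)
  push_cast
  norm_num

/-- the pieces of the telescoping sum -/
def uu (S : ℕ → ℝ) : ℕ → ℝ[X]
  | 0 => C (br 0 - S 0) * (toPoly [] - linProd [] *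
      toPoly (mulLin (bq 1) (mulLin (bq 2) (mulLin (bq 3) (mulLin (bq 4) baseL)))))
  | 1 => C (br 1 - S 1) * (toPoly [] - linProd [S 0] *
      toPoly (mulLin (bq 2) (mulLin (bq 3) (mulLin (bq 4) baseL))))
  | 2 => C (br 2 - S 2) * (toPoly [] - linProd [S 0, S 1] *
      toPoly (mulLin (bq 3) (mulLin (bq 4) baseL)))
  | 3 => C (br 3 - S 3) * (toPoly [] - linProd [S 0, S 1, S 2] * toPoly (mulLin (bq 4) baseL))
  | 4 => C (br 4 - S 4) * (toPoly [] - linProd [S 0, S 1, S 2, S 3] * toPoly baseL)
  | _ => toPoly rhoL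

def th : ℕ → ℝ
  | 0 => 30 / 100
  | 1 => 60 / 100
  | 2 => 8 / 100
  | 3 => 15 / 1000
  | 4 => 1 / 1000
  | _ => 4 / 1000

lemma P_eq (S : ℕ → ℝ) : mU - QS S = ∑ k ∈ range 6, uu S k := by
  have h1 : toPoly rhoL = mU - toPoly fullL := by
    unfold rhoL mU
    rw [toPoly_addL, toPoly_smulL]
    push_cast
    rw [C_neg, C_1]
    ring
  simp only [Finset.sum_range_succ, Finset.sum_range_zero, uu, h1]
  unfold fullL QS SL
  simp only [toPoly_mulLin, linProd, toPoly, C_sub]
  unfold br
  ring

lemma th_pos : ∀ k ∈ range 6, 0 < th k := by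
  intro k hk
  rw [Finset.mem_range] at hk
  interval_cases k <;> norm_num [th]

lemma th_sum : ∑ k ∈ range 6, th k = 1 := by
  simp only [Finset.sum_range_succ, Finset.sum_range_zero, th]
  norm_num

/-- near bound -/
lemma near_bound (S : ℕ → ℝ) (hS : ∀ k < 5, (loN k : ℝ) ≤ S k ∧ S k ≤ (hiN k : ℝ)) :
    NN (mU - QS S) ≤
      (br 0 - S 0) ^ 2 * (1456 / 10000000000000000000000000000) / (30 / 100) +
      (br 1 - S 1) ^ 2 * (1581 / 10000000000000000000000000000) / (60 / 100) +
      (br 2 - S 2) ^ 2 * (1781 / 10000000000000000000000000000) / (8 / 100) +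
      (br 3 - S 3) ^ 2 * (2174 / 10000000000000000000000000000) / (15 / 1000) +
      (br 4 - S 4) ^ 2 * (2675 / 10000000000000000000000000000) / (1 / 1000) +
      1 / 10000000000000000000000000000000000000000 / (4 / 1000) := by
  have h := NN_cauchy (range 6) (uu S) th th_pos th_sum
  rw [← P_eq] at h
  refine h.trans ?_
  simp only [Finset.sum_range_succ, Finset.sum_range_zero, uu, th, NN_smul, zero_add]
  have k0 := vert_sound [] (by simp) _ [] _ [] trivial (by simp [length_mulLin, baseL_length]) n_K0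
  have k1 := vert_sound [] (by simp) _ [(loN 0, hiN 0)] _ [S 0] ⟨hS 0 (by norm_num), trivial⟩
    (by simp [length_mulLin, baseL_length]) n_K1
  have k2 := vert_sound [] (by simp) _ [(loN 0, hiN 0), (loN 1, hiN 1)] _ [S 0, S 1]
    ⟨hS 0 (by norm_num), hS 1 (by norm_num), trivial⟩
    (by simp [length_mulLin, baseL_length]) n_K2
  have k3 := vert_sound [] (by simp) _ [(loN 0, hiN 0), (loN 1, hiN 1), (loN 2, hiN 2)] _
    [S 0, S 1, S 2]
    ⟨hS 0 (by norm_num), hS 1 (by norm_num), hS 2 (by norm_num), trivial⟩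
    (by simp [length_mulLin, baseL_length]) n_K3
  have k4 := vert_sound [] (by simp) _
    [(loN 0, hiN 0), (loN 1, hiN 1), (loN 2, hiN 2), (loN 3, hiN 3)] _ [S 0, S 1, S 2, S 3]
    ⟨hS 0 (by norm_num), hS 1 (by norm_num), hS 2 (by norm_num), hS 3 (by norm_num), trivial⟩
    (by simp [baseL_length]) n_K4
  have k5 : NN (toPoly rhoL) ≤ 1 / 10000000000000000000000000000000000000000 := by
    rw [NN_toPoly]
    · have := n_rho
      have h2 : ((Nq rhoL : ℚ) : ℝ) ≤
          ((1 / 10000000000000000000000000000000000000000 : ℚ) : ℝ) := by exact_mod_cast this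
      refine h2.trans (le_of_eq ?_)
      push_cast
      norm_num
    · unfold rhoL fullL
      rw [length_addL, length_smulL]
      simp only [length_mulLin, baseL_length]
      simp [mUL]
  push_cast at k0 k1 k2 k3 k4
  gcongr

end

end Pool.Agent.Lib.MP_76a7f5_an
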