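import Mathlib

/-!
List polynomials over `ℚ`, the quadratic form `NN` on real polynomials, its convexity, and the
vertex principle.
-/

namespace Pool.Agent.Lib.MP_76a7f5_an

open Polynomial Finset

noncomputable section

/-- the real polynomial with the listed coefficients -/
def toPoly : List ℚ → ℝ[X]
  | [] => 0
  | (c :: L) => C (c : ℝ) + X * toPoly L

end

/-- sum of two coefficient lists -/
def addL : List ℚ → List ℚ → List ℚ
  | [], L => L
  | (a :: L), [] => a :: L
  | (a :: L), (b :: M) => (a + b) :: addL L M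

/-- scalar multiple -/
def smulL (r : ℚ) : List ℚ → List ℚ
  | [] => []
  | (a :: L) => (r * a) :: smulL r L

/-- `(X - r) * L` -/
def mulLin (r : ℚ) (L : List ℚ) : List ℚ := addL (0 :: L) (smulL (-r) L)

/-- the form on lists; `w` is the current weight `3^(2j+3)`, `j` the current index -/
def nnL : List ℚ → ℕ → ℚ → ℚ
  | [], _, _ => 0
  | (a :: L), j, w => w * a ^ 2 / ((j : ℚ) + 1) ^ 2 + nnL L (j + 1) (9 * w)

/-- the form on coefficient lists -/
def Nq (L : List ℚ) : ℚ := nnL L 0 27

/-- Horner evaluation -/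
def horner : List ℚ → ℚ → ℚ
  | [], _ => 0
  | (a :: L), t => a + t * horner L t

/-- vertex check: `N(O - prod (X - e) * L) ≤ K` for all vertices `e` of the box -/
def vert (O : List ℚ) : List (ℚ × ℚ) → List ℚ → ℚ → Bool
  | [], L, K => decide (Nq (addL O (smulL (-1) L)) ≤ K)
  | (b :: bs), L, K => vert O bs (mulLin b.1 L) K && vert O bs (mulLin b.2 L) K

noncomputable section

/-- the quadratic form -/
def NN (p : ℝ[X]) : ℝ := ∑ j ∈ range 20, (3 : ℝ) ^ (2 * j + 3) * p.coeff j ^ 2 / ((j : ℝ) + 1) ^ 2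

lemma toPoly_addL : ∀ L M : List ℚ, toPoly (addL L M) = toPoly L + toPoly M
  | [], M => by simp [addL, toPoly]
  | (a :: L), [] => by simp [addL, toPoly]
  | (a :: L), (b :: M) => by
      simp only [addL, toPoly, toPoly_addL L M]
      push_cast
      rw [C_add]
      ring

lemma toPoly_smulL (r : ℚ) : ∀ L : List ℚ, toPoly (smulL r L) = C (r : ℝ) * toPoly L
  | [] => by simp [smulL, toPoly]
  | (a :: L) => by
      simp only [smulL, toPoly, toPoly_smulL r L]
      push_cast
      rw [C_mul]
      ring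

lemma toPoly_mulLin (r : ℚ) (L : List ℚ) : toPoly (mulLin r L) = (X - C (r : ℝ)) * toPoly L := by
  unfold mulLin
  rw [toPoly_addL, toPoly_smulL]
  simp only [toPoly]
  push_cast
  rw [C_0, C_neg]
  ring

lemma eval_toPoly (t : ℚ) : ∀ L : List ℚ, (toPoly L).eval (t : ℝ) = (horner L t : ℝ)
  | [] => by simp [toPoly, horner]
  | (a :: L) => by
      simp only [toPoly, horner, eval_add, eval_mul, eval_C, eval_X, eval_toPoly t L]
      push_cast
      ring

lemma coeff_toPoly : ∀ (L : List ℚ) (j : ℕ), (toPoly L).coeff j = ((L.getD j 0 : ℚ) : ℝ)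
  | [], j => by simp [toPoly]
  | (a :: L), 0 => by simp [toPoly]
  | (a :: L), (j + 1) => by
      simp only [toPoly, coeff_add, coeff_C_succ, coeff_X_mul, coeff_toPoly L j, zero_add]
      simp

lemma nnL_eq : ∀ (L : List ℚ) (j n : ℕ), L.length ≤ n →
    nnL L j (27 * 9 ^ j) =
      ∑ i ∈ range n, (3 : ℚ) ^ (2 * (j + i) + 3) * (L.getD i 0) ^ 2 / (((j + i : ℕ) : ℚ) + 1) ^ 2
  | [], j, n, _ => by simp [nnL]
  | (a :: L), j, 0, h => by simp at h
  | (a :: L), j, (n + 1), h => by
      rw [Finset.sum_range_succ']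
      simp only [nnL]
      have h1 : (9 : ℚ) * (27 * 9 ^ j) = 27 * 9 ^ (j + 1) := by ring
      rw [h1, nnL_eq L (j + 1) n (by simpa using h)]
      have h2 : (27 : ℚ) * 9 ^ j = 3 ^ (2 * j + 3) := by
        rw [pow_add, pow_mul]; norm_num; ring
      rw [add_comm]
      congr 1
      · refine Finset.sum_congr rfl fun i _ => ?_
        simp only [List.getD_cons_succ]
        have : j + 1 + i = j + (i + 1) := by ring
        rw [this]
      · simp only [List.getD_cons_zero, h2, add_zero]

lemma NN_toPoly (L : List ℚ) (hL : L.length ≤ 20) : NN (toPoly L) = (Nq L : ℝ) := by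
  unfold NN Nq
  have h := nnL_eq L 0 20 hL
  simp only [pow_zero, mul_one, zero_add] at h
  rw [h]
  push_cast
  refine Finset.sum_congr rfl fun i _ => ?_
  rw [coeff_toPoly]

lemma NN_nonneg (p : ℝ[X]) : 0 ≤ NN p := by
  unfold NN
  exact Finset.sum_nonneg fun j _ => by positivity

/-- convexity of the form along a segment -/
lemma NN_seg (p q : ℝ[X]) (u K : ℝ) (hu0 : 0 ≤ u) (hu1 : u ≤ 1) (h1 : NN p ≤ K) (h2 : NN q ≤ K) :
    NN (C (1 - u) * p + C u * q) ≤ K := by
  have h : NN (C (1 - u) * p + C u * q) ≤ (1 - u) * NN p + u * NN q := by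
    unfold NN
    rw [Finset.mul_sum, Finset.mul_sum, ← Finset.sum_add_distrib]
    refine Finset.sum_le_sum fun j _ => ?_
    simp only [coeff_add, coeff_C_mul]
    have e : ((1 - u) * p.coeff j + u * q.coeff j) ^ 2 ≤
        (1 - u) * p.coeff j ^ 2 + u * q.coeff j ^ 2 := by
      nlinarith [mul_nonneg (mul_nonneg hu0 (sub_nonneg.2 hu1)) (sq_nonneg (p.coeff j - q.coeff j))]
    have w : 0 ≤ (3 : ℝ) ^ (2 * j + 3) / ((j : ℝ) + 1) ^ 2 := by positivity
    calc (3 : ℝ) ^ (2 * j + 3) * ((1 - u) * p.coeff j + u * q.coeff j) ^ 2 / ((j : ℝ) + 1) ^ 2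
        = (3 : ℝ) ^ (2 * j + 3) / ((j : ℝ) + 1) ^ 2 * ((1 - u) * p.coeff j + u * q.coeff j) ^ 2 := by
          ring
      _ ≤ (3 : ℝ) ^ (2 * j + 3) / ((j : ℝ) + 1) ^ 2 *
          ((1 - u) * p.coeff j ^ 2 + u * q.coeff j ^ 2) := mul_le_mul_of_nonneg_left e w
      _ = _ := by ring
  have h3 : (1 - u) * NN p ≤ (1 - u) * K := mul_le_mul_of_nonneg_left h1 (by linarith)
  have h4 : u * NN q ≤ u * K := mul_le_mul_of_nonneg_left h2 hu0
  linarith

lemma NN_step (O Q : ℝ[X]) (lo hi s K : ℝ) (h1 : lo ≤ s) (h2 : s ≤ hi)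
    (hlo : NN (O - (X - C lo) * Q) ≤ K) (hhi : NN (O - (X - C hi) * Q) ≤ K) :
    NN (O - (X - C s) * Q) ≤ K := by
  rcases eq_or_lt_of_le (h1.trans h2) with h | h
  · have : s = lo := le_antisymm (h ▸ h2) h1
    rw [this]; exact hlo
  · have hd : 0 < hi - lo := by linarith
    have key := NN_seg _ _ ((s - lo) / (hi - lo)) K (div_nonneg (by linarith) hd.le)
      ((div_le_one hd).2 (by linarith)) hlo hhi
    have e : C (1 - (s - lo) / (hi - lo)) * (O - (X - C lo) * Q) +
        C ((s - lo) / (hi - lo)) * (O - (X - C hi) * Q) = O - (X - C s) * Q := by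
      have e1 : s = (1 - (s - lo) / (hi - lo)) * lo + ((s - lo) / (hi - lo)) * hi := by
        field_simp; ring
      set u := (s - lo) / (hi - lo)
      have e2 : C s = C (1 - u) * C lo + C u * C hi := by
        rw [← C_mul, ← C_mul, ← C_add, ← e1]
      rw [e2]
      rw [C_sub, C_1]
      ring
    rw [e] at key
    exact key

/-- the product `∏ (X - s)` over a list -/
def linProd : List ℝ → ℝ[X]
  | [] => 1
  | (s :: ss) => (X - C s) * linProd ss

/-- `ss` lies in the box `bs` -/
def InBox : List ℝ → List (ℚ × ℚ) → Prop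
  | [], [] => True
  | (s :: ss), (b :: bs) => ((b.1 : ℝ) ≤ s ∧ s ≤ (b.2 : ℝ)) ∧ InBox ss bs
  | _, _ => False

lemma length_addL : ∀ L M : List ℚ, (addL L M).length = max L.length M.length
  | [], M => by simp [addL]
  | (a :: L), [] => by simp [addL]
  | (a :: L), (b :: M) => by
      simp only [addL, List.length_cons, length_addL L M]
      omega

lemma length_smulL (r : ℚ) : ∀ L : List ℚ, (smulL r L).length = L.length
  | [] => rfl
  | (a :: L) => by simp [smulL, length_smulL r L]

lemma length_mulLin (r : ℚ) (L : List ℚ) : (mulLin r L).length = L.length + 1 := by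
  unfold mulLin
  rw [length_addL, length_smulL]
  simp

theorem vert_sound (O : List ℚ) (hO : O.length ≤ 20) (K : ℚ) :
    ∀ (bs : List (ℚ × ℚ)) (L : List ℚ) (ss : List ℝ), InBox ss bs →
      L.length + bs.length ≤ 20 → vert O bs L K = true →
      NN (toPoly O - linProd ss * toPoly L) ≤ (K : ℝ)
  | [], L, [], _, hlen, h => by
      simp only [vert, decide_eq_true_eq] at h
      have e : toPoly O - linProd [] * toPoly L = toPoly (addL O (smulL (-1) L)) := by
        rw [toPoly_addL, toPoly_smulL]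
        simp only [linProd]
        push_cast
        rw [C_neg, C_1]
        ring
      rw [e, NN_toPoly]
      · exact_mod_cast h
      · rw [length_addL, length_smulL]
        simp only [List.length_nil, add_zero] at hlen
        omega
  | (b :: bs), L, (s :: ss), hs, hlen, h => by
      simp only [vert, Bool.and_eq_true] at h
      obtain ⟨⟨hs1, hs2⟩, hs3⟩ := hs
      simp only [List.length_cons] at hlen
      have h1 := vert_sound O hO K bs (mulLin b.1 L) ss hs3 (by rw [length_mulLin]; omega) h.1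
      have h2 := vert_sound O hO K bs (mulLin b.2 L) ss hs3 (by rw [length_mulLin]; omega) h.2
      rw [toPoly_mulLin] at h1 h2
      have e : ∀ r : ℝ, linProd ss * ((X - C r) * toPoly L) = (X - C r) * (linProd ss * toPoly L) := by
        intro r; ring
      rw [e] at h1 h2
      have := NN_step (toPoly O) (linProd ss * toPoly L) b.1 b.2 s K hs1 hs2 h1 h2
      simp only [linProd]
      rw [mul_assoc]
      exact this

end

end Pool.Agent.Lib.MP_76a7f5_an
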