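import Pool.Agent.Lib.MP_76a7f5_an.Defs

/-!
# The energy as a weighted sum of squared moment errors
-/

set_option autoImplicit false

namespace Pool.Agent.Lib.MP_76a7f5_an

open Finset

theorem tk_even (j : ℕ) : tk (2 * j) = 1 / (2 * j + 1) := by
  unfold tk
  rw [if_pos (even_two_mul j)]
  push_cast
  rfl

theorem tk_odd (j : ℕ) : tk (2 * j + 1) = 0 := by
  unfold tk
  rw [if_neg]
  rw [Nat.not_even_iff_odd]
  exact odd_two_mul_add_one j

theorem tk_nonneg (k : ℕ) : 0 ≤ tk k := by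
  unfold tk
  split
  · positivity
  · exact le_rfl

theorem tk_le_one (k : ℕ) : tk k ≤ 1 := by
  unfold tk
  split
  · rw [div_le_one (by positivity)]
    have : (0 : ℝ) ≤ k := Nat.cast_nonneg k
    linarith
  · exact zero_le_one

theorem hs_of {f g : ℕ → ℝ} {a b : ℝ} (h : HasSum f a) (hf : ∀ k, g k = f k) (hab : b = a) :
    HasSum g b := by
  rw [hab]
  have : g = f := funext hf
  rw [this]; exact h

theorem g_even (x : ℝ) (hx : |x| ≤ 1) :
    HasSum (fun j : ℕ => (1 / 3 : ℝ) ^ (2 * j + 1) * (2 * x ^ (2 * j) / (2 * j + 1))) (g x) := by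
  by_cases h0 : x = 0
  · subst h0
    have h1 : g 0 = (1 / 3 : ℝ) ^ (2 * 0 + 1) * (2 * (0:ℝ) ^ (2 * 0) / (2 * ((0:ℕ):ℝ) + 1)) := by
      simp [g]; norm_num
    rw [h1]
    refine hasSum_single 0 ?_
    intro j hj
    have : (0:ℝ) ^ (2 * j) = 0 := by
      apply zero_pow; omega
    rw [this]; simp
  · have hy : |x / 3| < 1 := by
      rw [abs_div, abs_of_pos (by norm_num : (0:ℝ) < 3)]; linarith
    have h := (Real.hasSum_log_sub_log_of_abs_lt_one hy).mul_left x⁻¹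
    have hx' := abs_le.mp hx
    have h3 : g x = x⁻¹ * (Real.log (1 + x / 3) - Real.log (1 - x / 3)) := by
      unfold g
      rw [if_neg h0]
      congr 1
      rw [← Real.log_div (by linarith) (by linarith)]
      congr 1
      have e1 : (3 - x) ≠ 0 := by linarith
      have e2 : (1 - x / 3) ≠ 0 := by linarith
      field_simp
    rw [h3]
    refine hs_of h (fun j => ?_) rfl
    have e1 : ((2:ℝ) * j + 1) ≠ 0 := by positivity
    have e2 : (1 / 3 : ℝ) ^ (2 * j + 1) = 1 / 3 ^ (2 * j + 1) := by rw [one_div_pow]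
    have e3 : (x / 3) ^ (2 * j + 1) = x ^ (2 * j) * x / 3 ^ (2 * j + 1) := by
      rw [div_pow, pow_succ x]
    rw [e2, e3]
    field_simp

theorem g_hasSum (x : ℝ) (hx : |x| ≤ 1) :
    HasSum (fun k : ℕ => (1 / 3 : ℝ) ^ (k + 1) * (2 * tk k * x ^ k)) (g x) := by
  have h1 : HasSum (fun j : ℕ => (1 / 3 : ℝ) ^ (2 * j + 1) * (2 * tk (2 * j) * x ^ (2 * j)))
      (g x) := by
    refine hs_of (g_even x hx) (fun j => ?_) rfl
    rw [tk_even]
    ring
  have h2 : HasSum (fun j : ℕ => (1 / 3 : ℝ) ^ (2 * j + 1 + 1) *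
      (2 * tk (2 * j + 1) * x ^ (2 * j + 1))) 0 := by
    have : (fun j : ℕ => (1 / 3 : ℝ) ^ (2 * j + 1 + 1) *
      (2 * tk (2 * j + 1) * x ^ (2 * j + 1))) = fun _ => 0 := by
      funext j; rw [tk_odd]; ring
    rw [this]
    exact hasSum_zero
  have h3 := HasSum.even_add_odd (f := fun k : ℕ => (1 / 3 : ℝ) ^ (k + 1) * (2 * tk k * x ^ k))
    h1 h2
  rwa [add_zero] at h3

theorem ker_hasSum (t : ℝ) (ht : |t| ≤ 1) :
    HasSum (fun k : ℕ => (1 / 3 : ℝ) ^ (k + 1) * t ^ k) (1 / (3 - t)) := by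
  have h2 : |t / 3| < 1 := by
    rw [abs_div, abs_of_pos (by norm_num : (0:ℝ) < 3)]; linarith
  have h := (hasSum_geometric_of_abs_lt_one h2).mul_left (1 / 3)
  have hx' := abs_le.mp ht
  refine hs_of h (fun k => ?_) ?_
  · rw [div_pow t, one_div_pow, pow_succ]
    field_simp
  · have e1 : (3 - t) ≠ 0 := by linarith
    have e2 : (1 - t / 3) ≠ 0 := by linarith
    field_simp

theorem abs_mul_le {n : ℕ} {x : Fin n → ℝ} (hx : x ∈ cube n) (i j : Fin n) : |x i * x j| ≤ 1 := by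
  rw [abs_mul]
  have h1 : |x i| ≤ 1 := abs_le.mpr (hx i)
  have h2 : |x j| ≤ 1 := abs_le.mpr (hx j)
  calc |x i| * |x j| ≤ 1 * 1 := by gcongr
    _ = 1 := by norm_num

/-- the energy as a series in the moments -/
theorem F_hasSum {n : ℕ} (hn : 0 < n) (x : Fin n → ℝ) (hx : x ∈ cube n) :
    HasSum (fun k : ℕ => (1 / 3 : ℝ) ^ (k + 1) * ((ps x k / n - tk k) ^ 2 - tk k ^ 2))
      (F n x / n) := by
  have hn' : (n : ℝ) ≠ 0 := by positivity
  have h1 : HasSum (fun k : ℕ => ∑ i, ∑ j, (1 / 3 : ℝ) ^ (k + 1) * (x i * x j) ^ k)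
      (∑ i, ∑ j, 1 / (3 - x i * x j)) :=
    hasSum_sum fun i _ => hasSum_sum fun j _ => ker_hasSum _ (abs_mul_le hx i j)
  have h2 : HasSum (fun k : ℕ => ∑ i, (1 / 3 : ℝ) ^ (k + 1) * (2 * tk k * x i ^ k))
      (∑ i, g (x i)) := hasSum_sum fun i _ => g_hasSum _ (abs_le.mpr (hx i))
  have h3 := ((h1.mul_left (1 / (n : ℝ))).sub h2).mul_left (1 / (n : ℝ))
  have e : F n x / n = 1 / (n : ℝ) * (1 / (n : ℝ) * ∑ i, ∑ j, 1 / (3 - x i * x j) -
      ∑ i, g (x i)) := by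
    unfold F; ring
  rw [e]
  refine hs_of h3 (fun k => ?_) rfl
  have hsq : ∑ i, ∑ j, (1 / 3 : ℝ) ^ (k + 1) * (x i * x j) ^ k =
      (1 / 3 : ℝ) ^ (k + 1) * ((∑ i, x i ^ k) * (∑ i, x i ^ k)) := by
    rw [Finset.sum_mul_sum, Finset.mul_sum]
    refine Finset.sum_congr rfl fun i _ => ?_
    rw [Finset.mul_sum]
    refine Finset.sum_congr rfl fun j _ => ?_
    rw [mul_pow]
  have hlin : ∑ i, (1 / 3 : ℝ) ^ (k + 1) * (2 * tk k * x i ^ k) =
      (1 / 3 : ℝ) ^ (k + 1) * (2 * tk k * ∑ i, x i ^ k) := by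
    rw [Finset.mul_sum, Finset.mul_sum]
  rw [hsq, hlin]
  unfold ps
  field_simp
  ring

theorem geo (K : ℕ) : HasSum (fun k : ℕ => (1 / 3 : ℝ) ^ (k + K + 1)) ((1 / 3 : ℝ) ^ K / 2) := by
  have h := (hasSum_geometric_of_lt_one (r := (1 / 3 : ℝ)) (by norm_num) (by norm_num)).mul_left
    ((1 / 3 : ℝ) ^ (K + 1))
  refine hs_of h (fun k => ?_) ?_
  · rw [← pow_add]; congr 1; omega
  · rw [pow_succ]; norm_num; ring

theorem summable_tk : Summable (fun k : ℕ => (1 / 3 : ℝ) ^ (k + 1) * (tk k) ^ 2) := by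
  have h := (geo 0).summable
  refine Summable.of_nonneg_of_le (fun k => by positivity) (fun k => ?_) h
  have h1 : (tk k) ^ 2 ≤ 1 := by
    have := tk_nonneg k
    have := tk_le_one k
    nlinarith
  calc (1 / 3 : ℝ) ^ (k + 1) * (tk k) ^ 2 ≤ (1 / 3 : ℝ) ^ (k + 1) * 1 := by gcongr
    _ = (1 / 3 : ℝ) ^ (k + 0 + 1) := by rw [mul_one, add_zero]

/-- The energy, up to a constant, is a weighted sum of squares. -/
theorem energy_hasSum {n : ℕ} (hn : 0 < n) (x : Fin n → ℝ) (hx : x ∈ cube n) :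
    HasSum (fun k : ℕ => (1 / 3 : ℝ) ^ (k + 1) * (ps x k / n - tk k) ^ 2) (F n x / n + Cst) := by
  have h := (F_hasSum hn x hx).add summable_tk.hasSum
  refine hs_of h (fun k => ?_) rfl
  ring

theorem energy_ge {n : ℕ} (hn : 0 < n) (x : Fin n → ℝ) (hx : x ∈ cube n) (s : Finset ℕ) :
    (∑ k ∈ s, (1 / 3 : ℝ) ^ (k + 1) * (ps x k / n - tk k) ^ 2) ≤ F n x / n + Cst :=
  sum_le_hasSum s (fun k _ => by positivity) (energy_hasSum hn x hx)

theorem ps_abs_le {n : ℕ} (x : Fin n → ℝ) (hx : x ∈ cube n) (k : ℕ) : |ps x k| ≤ n := by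
  unfold ps
  calc |∑ i, x i ^ k| ≤ ∑ i, |x i ^ k| := Finset.abs_sum_le_sum_abs _ _
    _ ≤ ∑ _i : Fin n, (1 : ℝ) := by
        refine Finset.sum_le_sum fun i _ => ?_
        rw [abs_pow]
        exact pow_le_one₀ (abs_nonneg _) (abs_le.mpr (hx i))
    _ = n := by simp

theorem term_le {n : ℕ} (hn : 0 < n) (x : Fin n → ℝ) (hx : x ∈ cube n) (k : ℕ) :
    (ps x k / n - tk k) ^ 2 ≤ 1 := by
  have hn' : (0 : ℝ) < n := by exact_mod_cast hn
  have h := abs_le.mp (ps_abs_le x hx k)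
  have h1 : ps x k / n ≤ 1 := by rw [div_le_one hn']; exact h.2
  have h2 : -1 ≤ ps x k / n := by rw [le_div_iff₀ hn']; linarith [h.1]
  by_cases hk : Even k
  · have h3 : 0 ≤ ps x k / n := by
      refine div_nonneg (Finset.sum_nonneg fun i _ => ?_) hn'.le
      exact hk.pow_nonneg _
    have h4 := tk_nonneg k
    have h5 := tk_le_one k
    nlinarith
  · have : tk k = 0 := by unfold tk; rw [if_neg hk]
    rw [this, sub_zero]
    nlinarith

theorem energy_le {n : ℕ} (hn : 0 < n) (x : Fin n → ℝ) (hx : x ∈ cube n) (K : ℕ) :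
    F n x / n + Cst ≤ (∑ k ∈ range K, (1 / 3 : ℝ) ^ (k + 1) * (ps x k / n - tk k) ^ 2) +
      (1 / 3 : ℝ) ^ K / 2 := by
  have h := (hasSum_nat_add_iff' K).mpr (energy_hasSum hn x hx)
  have h2 := hasSum_le (fun k => ?_) h (geo K)
  · linarith
  · calc (1 / 3 : ℝ) ^ (k + K + 1) * (ps x (k + K) / n - tk (k + K)) ^ 2
        ≤ (1 / 3 : ℝ) ^ (k + K + 1) * 1 := by
          gcongr
          exact term_le hn x hx (k + K)
      _ = (1 / 3 : ℝ) ^ (k + K + 1) := mul_one _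

end Pool.Agent.Lib.MP_76a7f5_an
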